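import Mathlib

set_option autoImplicit false

namespace Pool.Agent.Helper65.TT

open SimpleGraph

variable {V : Type*}

/-- `H` is a decomposition of `G` into `t` trees: the subgraphs `H i` are trees, they are pairwise
edge-disjoint, and their union is `G`. -/
def IsTreeDecomposition (G : SimpleGraph V) {t : ℕ} (H : Fin t → G.Subgraph) : Prop :=
  (∀ i, (H i).coe.IsTree) ∧ (∀ i j, i ≠ j → Disjoint (H i).edgeSet (H j).edgeSet) ∧
    ⨆ i, H i = ⊤

/-- The tree thickness: the least number of trees in a decomposition of `G` into trees. -/
noncomputable def treeThickness (G : SimpleGraph V) : ℕ :=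
  sInf {t | ∃ H : Fin t → G.Subgraph, IsTreeDecomposition G H}

/-- `σ` is a rotation system of `G`: a permutation of the darts (oriented edges) which fixes the
start vertex of every dart and permutes the darts with a given start vertex cyclically. -/
def IsRotationSystem (G : SimpleGraph V) (σ : Equiv.Perm G.Dart) : Prop :=
  (∀ d, (σ d).fst = d.fst) ∧ ∀ d d' : G.Dart, d.fst = d'.fst → σ.SameCycle d d'

/-- The face permutation of a rotation system: reverse the dart, then rotate. -/
def facePerm (G : SimpleGraph V) (σ : Equiv.Perm G.Dart) : Equiv.Perm G.Dart :=
  (Function.Involutive.toPerm Dart.symm Dart.symm_involutive).trans σ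

/-- The number of faces: the number of cycles of the face permutation (fixed darts included). -/
noncomputable def numFaces (G : SimpleGraph V) (σ : Equiv.Perm G.Dart) : ℕ :=
  Nat.card (Quotient (Equiv.Perm.SameCycle.setoid (facePerm G σ)))

/-- Planarity of a connected graph: there is a rotation system for which Euler's formula
`|V| - |E| + |F| = 2` of the sphere holds. (A graph without edges has no darts; the connected
graph with one vertex is planar.) -/
def IsPlanar (G : SimpleGraph V) : Prop :=
  G = ⊥ ∨ ∃ σ : Equiv.Perm G.Dart, IsRotationSystem G σ ∧
    Nat.card V + numFaces G σ = G.edgeSet.ncard + 2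

end Pool.Agent.Helper65.TT
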