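import Mathlib
import Pool.Agent.Helper65.TT.Defs

set_option autoImplicit false

namespace Pool.Agent.Helper65.TT.Planar

open SimpleGraph Pool.Agent.Helper65.TT

variable {V : Type*} (G : SimpleGraph V) (σ : Equiv.Perm G.Dart)

/-- the faces of a rotation system -/
abbrev Face := Quotient (Equiv.Perm.SameCycle.setoid (facePerm G σ))

/-- the face of a dart -/
def face (d : G.Dart) : Face G σ := Quotient.mk _ d

lemma facePerm_apply (d : G.Dart) : facePerm G σ d = σ d.symm := rfl

lemma face_facePerm (d : G.Dart) : face G σ (facePerm G σ d) = face G σ d := by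
  apply Quotient.sound
  show (facePerm G σ).SameCycle _ _
  rw [Equiv.Perm.sameCycle_apply_left]

lemma face_symm (d : G.Dart) : face G σ d.symm = face G σ (σ d) := by
  rw [← face_facePerm G σ d.symm, facePerm_apply, Dart.symm_symm]

section Lin

variable [Fintype V] [DecidableEq V] [DecidableRel G.Adj]

/-- boundary of a set of faces, as a set of edges modulo 2 -/
def bd2 : (Face G σ → ZMod 2) →ₗ[ZMod 2] (G.edgeSet → ZMod 2) where
  toFun s e := ∑ d : G.Dart with d.edge = e.1, s (face G σ d)
  map_add' s t := by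
    ext e
    simp [Finset.sum_add_distrib]
  map_smul' c s := by
    ext e
    simp [Finset.mul_sum]

/-- boundary of a set of edges -/
def bd1 : (G.edgeSet → ZMod 2) →ₗ[ZMod 2] (V → ZMod 2) where
  toFun c v := ∑ d : G.Dart with d.fst = v, c ⟨d.edge, d.edge_mem⟩
  map_add' s t := by
    ext e
    simp [Finset.sum_add_distrib]
  map_smul' c s := by
    ext e
    simp [Finset.mul_sum]

lemma bd2_apply (s : Face G σ → ZMod 2) (d : G.Dart) :
    bd2 G σ s ⟨d.edge, d.edge_mem⟩ = s (face G σ d) + s (face G σ d.symm) := by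
  show ∑ d' : G.Dart with d'.edge = d.edge, s (face G σ d') = _
  rw [d.edge_fiber, Finset.sum_pair d.symm_ne.symm]

lemma bd1_bd2 (hσ : IsRotationSystem G σ) (s : Face G σ → ZMod 2) :
    bd1 G (bd2 G σ s) = 0 := by
  ext v
  show ∑ d : G.Dart with d.fst = v, bd2 G σ s ⟨d.edge, d.edge_mem⟩ = 0
  rw [Finset.sum_congr rfl (fun d _ => bd2_apply G σ s d), Finset.sum_add_distrib]
  have h1 : ∑ d : G.Dart with d.fst = v, s (face G σ d.symm)
      = ∑ d : G.Dart with d.fst = v, s (face G σ d) := by
    rw [Finset.sum_congr rfl (fun d _ => by rw [face_symm])]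
    apply Finset.sum_bij (fun d _ => σ d)
    · intro d hd
      rw [Finset.mem_filter] at hd ⊢
      exact ⟨Finset.mem_univ _, (hσ.1 d).trans hd.2⟩
    · intro d _ d' _ h
      exact σ.injective h
    · intro d hd
      rw [Finset.mem_filter] at hd
      refine ⟨σ.symm d, ?_, by simp⟩
      rw [Finset.mem_filter]
      refine ⟨Finset.mem_univ _, ?_⟩
      have := hσ.1 (σ.symm d)
      rw [Equiv.apply_symm_apply] at this
      exact this.symm.trans hd.2
    · intro d _
      rfl
  rw [h1]
  exact CharTwo.add_self_eq_zero _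

/-- a function on darts invariant under reversal and rotation is constant -/
lemma const_of_inv (hσ : IsRotationSystem G σ) (hG : G.Connected) {α : Type*} (f : G.Dart → α)
    (h1 : ∀ d, f d.symm = f d) (h2 : ∀ d, f (σ d) = f d) (d d' : G.Dart) : f d = f d' := by
  have hz : ∀ (n : ℤ) d, f ((σ ^ n) d) = f d := by
    intro n
    induction n with
    | zero => intro d; simp
    | succ n ih => intro d; rw [zpow_add_one, Equiv.Perm.mul_apply, ih, h2]
    | pred n ih =>
      intro d
      rw [zpow_sub_one, Equiv.Perm.mul_apply, ih]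
      have h3 := h2 (σ⁻¹ d)
      have h4 : σ (σ⁻¹ d) = d := σ.apply_symm_apply d
      rw [h4] at h3
      exact h3.symm
  have hv : ∀ d d' : G.Dart, d.fst = d'.fst → f d = f d' := by
    intro d d' h
    obtain ⟨n, hn⟩ := hσ.2 d d' h
    rw [← hn, hz]
  have hw : ∀ (u v : V) (p : G.Walk u v) (d d' : G.Dart), d.fst = u → d'.fst = v →
      f d = f d' := by
    intro u v p
    induction p with
    | nil =>
      intro d d' h h'
      exact hv d d' (h.trans h'.symm)
    | @cons a b c hab p ih =>
      intro d d' h h'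
      let e : G.Dart := ⟨(a, b), hab⟩
      rw [hv d e h, ← h1 e]
      exact ih e.symm d' rfl h'
  obtain ⟨p⟩ := hG.preconnected d.fst d'.fst
  exact hw _ _ p d d' rfl rfl

lemma ker_bd2 (hσ : IsRotationSystem G σ) (hG : G.Connected) (s : Face G σ → ZMod 2)
    (hs : bd2 G σ s = 0) (q q' : Face G σ) : s q = s q' := by
  induction q using Quotient.inductionOn with
  | _ d =>
    induction q' using Quotient.inductionOn with
    | _ d' =>
      have h : ∀ d, s (face G σ d.symm) = s (face G σ d) := by
        intro d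
        have h1 := bd2_apply G σ s d
        rw [hs] at h1
        have h2 : s (face G σ d) + s (face G σ d.symm) = 0 := h1.symm
        exact (CharTwo.add_eq_zero.1 h2).symm
      exact const_of_inv G σ hσ hG (fun d => s (face G σ d)) h (fun d => by
        show s (face G σ (σ d)) = s (face G σ d)
        rw [← face_symm]; exact h d) d d'

lemma finrank_ker_bd2 (hσ : IsRotationSystem G σ) (hG : G.Connected) :
    Module.finrank (ZMod 2) (LinearMap.ker (bd2 G σ)) ≤ 1 := by
  apply finrank_le_one (⟨fun _ => 1, by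
    rw [LinearMap.mem_ker]
    ext e
    obtain ⟨e, he⟩ := e
    induction e using Sym2.ind with
    | _ a b =>
      have := bd2_apply G σ (fun _ => 1) ⟨(a, b), he⟩
      refine this.trans ?_
      exact CharTwo.add_self_eq_zero (1 : ZMod 2)⟩ : LinearMap.ker (bd2 G σ))
  rintro ⟨s, hs⟩
  rw [LinearMap.mem_ker] at hs
  by_cases hne : Nonempty (Face G σ)
  · obtain ⟨q0⟩ := hne
    refine ⟨s q0, ?_⟩
    apply Subtype.ext
    funext q
    show s q0 * 1 = s q
    rw [mul_one]
    exact ker_bd2 G σ hσ hG s hs q0 q
  · refine ⟨0, ?_⟩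
    apply Subtype.ext
    funext q
    exact absurd ⟨q⟩ hne

lemma bd1_single {a b : V} (hab : G.Adj a b) :
    bd1 G (Pi.single ⟨s(a, b), hab⟩ 1) = Pi.single a 1 + Pi.single b 1 := by
  ext v
  show ∑ d : G.Dart with d.fst = v, (Pi.single (⟨s(a, b), hab⟩ : G.edgeSet) (1 : ZMod 2) :
    G.edgeSet → ZMod 2) ⟨d.edge, d.edge_mem⟩ = _
  have h0 : ∀ d : G.Dart, (Pi.single (⟨s(a, b), hab⟩ : G.edgeSet) (1 : ZMod 2) :
      G.edgeSet → ZMod 2) ⟨d.edge, d.edge_mem⟩ = if d.edge = s(a, b) then 1 else 0 := by
    intro d
    rw [Pi.single_apply]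
    congr 1
    exact propext Subtype.mk_eq_mk
  rw [Finset.sum_congr rfl (fun d _ => h0 d), ← Finset.sum_filter, Finset.filter_filter]
  let e : G.Dart := ⟨(a, b), hab⟩
  have h1 : (Finset.univ.filter fun d : G.Dart => d.fst = v ∧ d.edge = s(a, b))
      = ({e, e.symm} : Finset G.Dart).filter fun d => d.fst = v := by
    have h2 : ({e, e.symm} : Finset G.Dart) = Finset.univ.filter fun d => d.edge = e.edge := by
      rw [e.edge_fiber]
    rw [h2, Finset.filter_filter]
    congr 1
    ext d
    exact and_comm
  rw [h1, Finset.sum_filter, Finset.sum_pair e.symm_ne.symm, Pi.add_apply, Pi.single_apply,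
    Pi.single_apply]
  have e1 : e.fst = a := rfl
  have e2 : e.symm.fst = b := rfl
  rw [e1, e2]
  simp only [eq_comm]

lemma card_le_finrank_range_bd1 (hG : G.Connected) :
    Fintype.card V ≤ Module.finrank (ZMod 2) (LinearMap.range (bd1 G)) + 1 := by
  obtain ⟨v0⟩ := hG.nonempty
  have htop : LinearMap.range (bd1 G) ⊔ Submodule.span (ZMod 2) {(Pi.single v0 1 : V → ZMod 2)}
      = ⊤ := by
    rw [eq_top_iff]
    have hmem : ∀ v, (Pi.single v 1 : V → ZMod 2) ∈
        LinearMap.range (bd1 G) ⊔ Submodule.span (ZMod 2) {(Pi.single v0 1 : V → ZMod 2)} := by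
      intro v
      obtain ⟨p⟩ := hG.preconnected v v0
      induction p with
      | nil => exact Submodule.mem_sup_right (Submodule.mem_span_singleton_self _)
      | @cons a b c hab p ih =>
        have h1 : (Pi.single a 1 : V → ZMod 2) =
            bd1 G (Pi.single ⟨s(a, b), hab⟩ 1) + Pi.single b 1 := by
          rw [bd1_single]
          ext w
          simp only [Pi.add_apply]
          rw [add_assoc, CharTwo.add_self_eq_zero, add_zero]
        rw [h1]
        exact Submodule.add_mem _ (Submodule.mem_sup_left ⟨_, rfl⟩) ih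
    intro f _
    have : f = ∑ v, f v • (Pi.single v 1 : V → ZMod 2) := by
      ext w
      simp [Finset.sum_apply, Pi.single_apply]
    rw [this]
    exact Submodule.sum_mem _ fun v _ => Submodule.smul_mem _ _ (hmem v)
  have h1 := Submodule.finrank_add_le_finrank_add_finrank (LinearMap.range (bd1 G))
    (Submodule.span (ZMod 2) {(Pi.single v0 1 : V → ZMod 2)})
  rw [htop, finrank_top, Module.finrank_fintype_fun_eq_card] at h1
  have h2 := finrank_span_le_card (R := ZMod 2) ({(Pi.single v0 1 : V → ZMod 2)} : Set (V → ZMod 2))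
  simp at h2
  omega

end Lin

end Pool.Agent.Helper65.TT.Planar
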