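import Mathlib
import Pool.Agent.Helper65.TT.Planar

set_option autoImplicit false

namespace Pool.Agent.Helper65.TT.Planar

open SimpleGraph Pool.Agent.Helper65.TT

variable {V : Type*} (G : SimpleGraph V) (σ : Equiv.Perm G.Dart)
variable [Fintype V] [DecidableEq V] [DecidableRel G.Adj]

lemma range_bd2_le (hσ : IsRotationSystem G σ) :
    LinearMap.range (bd2 G σ) ≤ LinearMap.ker (bd1 G) := by
  rintro _ ⟨s, rfl⟩
  rw [LinearMap.mem_ker]
  exact bd1_bd2 G σ hσ s

lemma card_edges_eq : Module.finrank (ZMod 2) (G.edgeSet → ZMod 2) = G.edgeSet.ncard := by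
  rw [Module.finrank_fintype_fun_eq_card, ← Nat.card_coe_set_eq, Nat.card_eq_fintype_card]

lemma finrank_face : Module.finrank (ZMod 2) (Face G σ → ZMod 2) = numFaces G σ := by
  classical
  have : Fintype (Face G σ) := Fintype.ofFinite _
  rw [Module.finrank_fintype_fun_eq_card, numFaces, Nat.card_eq_fintype_card]

/-- Euler's inequality -/
lemma euler_le (hσ : IsRotationSystem G σ) (hG : G.Connected) :
    Nat.card V + numFaces G σ ≤ G.edgeSet.ncard + 2 := by
  have h1 := (bd2 G σ).finrank_range_add_finrank_ker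
  have h2 := (bd1 G).finrank_range_add_finrank_ker
  have h3 := finrank_ker_bd2 G σ hσ hG
  have h4 := card_le_finrank_range_bd1 G hG
  have h5 := Submodule.finrank_mono (range_bd2_le G σ hσ)
  rw [finrank_face] at h1
  rw [card_edges_eq] at h2
  rw [Nat.card_eq_fintype_card]
  omega

lemma exact_of_euler (hσ : IsRotationSystem G σ) (hG : G.Connected)
    (he : Nat.card V + numFaces G σ = G.edgeSet.ncard + 2) :
    LinearMap.range (bd2 G σ) = LinearMap.ker (bd1 G) := by
  apply Submodule.eq_of_le_of_finrank_le (range_bd2_le G σ hσ)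
  have h1 := (bd2 G σ).finrank_range_add_finrank_ker
  have h2 := (bd1 G).finrank_range_add_finrank_ker
  have h3 := finrank_ker_bd2 G σ hσ hG
  have h4 := card_le_finrank_range_bd1 G hG
  rw [finrank_face] at h1
  rw [card_edges_eq] at h2
  rw [Nat.card_eq_fintype_card] at he
  omega

/-- a second nonzero dart at a vertex -/
lemma second_dart (z : G.edgeSet → ZMod 2) (hz : bd1 G z = 0) (d : G.Dart)
    (hd : z ⟨d.edge, d.edge_mem⟩ ≠ 0) :
    ∃ d' : G.Dart, d'.fst = d.fst ∧ d' ≠ d ∧ z ⟨d'.edge, d'.edge_mem⟩ ≠ 0 := by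
  by_contra hcon
  push Not at hcon
  have h1 : bd1 G z d.fst = 0 := by rw [hz]; rfl
  have h2 : bd1 G z d.fst = z ⟨d.edge, d.edge_mem⟩ := by
    show ∑ d' : G.Dart with d'.fst = d.fst, z ⟨d'.edge, d'.edge_mem⟩ = _
    rw [Finset.sum_eq_single d]
    · intro d' hd' hne
      rw [Finset.mem_filter] at hd'
      exact hcon d' hd'.2 hne
    · intro h
      exact absurd (by simp) h
  exact hd (h2.symm.trans h1)

/-- a nonzero element of the cycle space of a triangle-free graph has at least 4 edges -/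
lemma four_le_support (hG : G.CliqueFree 3) (z : G.edgeSet → ZMod 2) (hz : bd1 G z = 0)
    (hne : z ≠ 0) : 4 ≤ (Finset.univ.filter fun e => z e ≠ 0).card := by
  obtain ⟨e, he⟩ := Function.ne_iff.1 hne
  obtain ⟨e, hem⟩ := e
  induction e using Sym2.ind with
  | _ a b =>
    have hab : G.Adj a b := hem
    have he : z ⟨s(a, b), hem⟩ ≠ 0 := he
    obtain ⟨⟨⟨a1, c⟩, hac⟩, h1, h2, h3⟩ := second_dart G z hz ⟨(a, b), hab⟩ he
    have h1 : a1 = a := h1
    subst h1
    have hcb : c ≠ b := by rintro rfl; exact h2 rfl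
    have h3 : z ⟨s(a1, c), hac⟩ ≠ 0 := h3
    obtain ⟨⟨⟨b1, f⟩, hbf⟩, k1, k2, k3⟩ := second_dart G z hz ⟨(b, a1), hab.symm⟩ (by
      have : (⟨s(a1, b), hem⟩ : G.edgeSet) = ⟨s(b, a1), hab.symm⟩ := Subtype.ext Sym2.eq_swap
      rw [this] at he
      exact he)
    have k1 : b1 = b := k1
    subst k1
    have hfa : f ≠ a1 := by rintro rfl; exact k2 rfl
    have k3 : z ⟨s(b1, f), hbf⟩ ≠ 0 := k3
    obtain ⟨⟨⟨c1, g⟩, hcg⟩, l1, l2, l3⟩ := second_dart G z hz ⟨(c, a1), hac.symm⟩ (by
      have : (⟨s(a1, c), hac⟩ : G.edgeSet) = ⟨s(c, a1), hac.symm⟩ := Subtype.ext Sym2.eq_swap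
      rw [this] at h3
      exact h3)
    have l1 : c1 = c := l1
    subst l1
    have hga : g ≠ a1 := by rintro rfl; exact l2 rfl
    have l3 : z ⟨s(c1, g), hcg⟩ ≠ 0 := l3
    have hcf : c1 ≠ f := by
      rintro rfl
      exact hG {a1, b1, c1} (is3Clique_triple_iff.2 ⟨hab, hac, hbf⟩)
    have hcard : ({⟨s(a1, b1), hem⟩, ⟨s(a1, c1), hac⟩, ⟨s(b1, f), hbf⟩, ⟨s(c1, g), hcg⟩} :
        Finset G.edgeSet).card = 4 := by
      have e1 : s(c1, g) ≠ s(b1, f) := by
        rw [Ne, Sym2.eq_iff]
        rintro (⟨h, _⟩ | ⟨h, _⟩)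
        · exact hcb h
        · exact hcf h
      have e2 : s(a1, c1) ≠ s(b1, f) := by
        rw [Ne, Sym2.eq_iff]
        rintro (⟨h, _⟩ | ⟨h, _⟩)
        · exact hab.ne h
        · exact hfa h.symm
      have e3 : s(a1, c1) ≠ s(c1, g) := by
        rw [Ne, Sym2.eq_iff]
        rintro (⟨h, _⟩ | ⟨h, _⟩)
        · exact hac.ne h
        · exact hga h.symm
      have e4 : s(a1, b1) ≠ s(a1, c1) := by
        rw [Ne, Sym2.eq_iff]
        rintro (⟨_, h⟩ | ⟨h, _⟩)
        · exact hcb h.symm
        · exact hac.ne h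
      have e5 : s(a1, b1) ≠ s(b1, f) := by
        rw [Ne, Sym2.eq_iff]
        rintro (⟨h, _⟩ | ⟨h, _⟩)
        · exact hab.ne h
        · exact hfa h.symm
      have e6 : s(a1, b1) ≠ s(c1, g) := by
        rw [Ne, Sym2.eq_iff]
        rintro (⟨h, _⟩ | ⟨h, _⟩)
        · exact hac.ne h
        · exact hga h.symm
      have sub : ∀ (x y : Sym2 V) (hx : x ∈ G.edgeSet) (hy : y ∈ G.edgeSet), x ≠ y →
          (⟨x, hx⟩ : G.edgeSet) ≠ ⟨y, hy⟩ := fun x y hx hy h h' => h (congrArg Subtype.val h')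
      rw [Finset.card_insert_of_notMem, Finset.card_insert_of_notMem,
        Finset.card_insert_of_notMem, Finset.card_singleton]
      · rw [Finset.mem_singleton]
        exact sub _ _ _ _ e1.symm
      · rw [Finset.mem_insert, Finset.mem_singleton, not_or]
        exact ⟨sub _ _ _ _ e2, sub _ _ _ _ e3⟩
      · rw [Finset.mem_insert, Finset.mem_insert, Finset.mem_singleton, not_or, not_or]
        exact ⟨sub _ _ _ _ e4, sub _ _ _ _ e5, sub _ _ _ _ e6⟩
    rw [← hcard]
    apply Finset.card_le_card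
    intro e he'
    rw [Finset.mem_filter]
    refine ⟨Finset.mem_univ _, ?_⟩
    simp only [Finset.mem_insert, Finset.mem_singleton] at he'
    rcases he' with rfl | rfl | rfl | rfl <;> assumption

section U
variable (U : Set V)

/-- two faces are adjacent across an edge that is not inside `U` -/
def adjF (f f' : Face G σ) : Prop :=
  ∃ d : G.Dart, ¬ (∀ v ∈ d.edge, v ∈ U) ∧ f = face G σ d ∧ f' = face G σ d.symm

/-- classes of faces -/
abbrev Cls := Quotient (Relation.EqvGen.setoid (adjF G σ U))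

/-- boundary of a set of classes -/
noncomputable def bdC : (Cls G σ U → ZMod 2) →ₗ[ZMod 2] (G.edgeSet → ZMod 2) :=
  (bd2 G σ).comp (LinearMap.funLeft (ZMod 2) (ZMod 2)
    (Quotient.mk (Relation.EqvGen.setoid (adjF G σ U))))

lemma bdC_apply (t : Cls G σ U → ZMod 2) (d : G.Dart) :
    bdC G σ U t ⟨d.edge, d.edge_mem⟩ =
      t (Quotient.mk _ (face G σ d)) + t (Quotient.mk _ (face G σ d.symm)) :=
  bd2_apply G σ _ d

lemma bdC_outside (t : Cls G σ U → ZMod 2) (d : G.Dart) (hd : ¬ (∀ v ∈ d.edge, v ∈ U)) :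
    bdC G σ U t ⟨d.edge, d.edge_mem⟩ = 0 := by
  rw [bdC_apply]
  have : (Quotient.mk (Relation.EqvGen.setoid (adjF G σ U)) (face G σ d)) =
      Quotient.mk _ (face G σ d.symm) := by
    apply Quotient.sound
    exact Relation.EqvGen.rel _ _ ⟨d, hd, rfl, rfl⟩
  rw [this]
  exact CharTwo.add_self_eq_zero _

lemma mem_range_bdC (hex : LinearMap.range (bd2 G σ) = LinearMap.ker (bd1 G))
    (z : G.edgeSet → ZMod 2) (hz : bd1 G z = 0)
    (hout : ∀ e : G.edgeSet, ¬ (∀ v ∈ e.1, v ∈ U) → z e = 0) :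
    z ∈ LinearMap.range (bdC G σ U) := by
  have h1 : z ∈ LinearMap.range (bd2 G σ) := by
    rw [hex, LinearMap.mem_ker]; exact hz
  obtain ⟨s, hs⟩ := h1
  have hs2 : ∀ f f', adjF G σ U f f' → s f = s f' := by
    rintro f f' ⟨d, hd, rfl, rfl⟩
    have h2 := bd2_apply G σ s d
    rw [hs, hout ⟨d.edge, d.edge_mem⟩ hd] at h2
    exact CharTwo.add_eq_zero.1 h2.symm
  have hs3 : ∀ f f', Relation.EqvGen (adjF G σ U) f f' → s f = s f' := by
    intro f f' h
    induction h with
    | rel x y h => exact hs2 x y h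
    | refl x => rfl
    | symm x y _ ih => exact ih.symm
    | trans x y z _ _ ih1 ih2 => exact ih1.trans ih2
  refine ⟨Quotient.lift s hs3, ?_⟩
  rw [← hs]
  rfl

/-- extension by zero -/
def ext0 (P : G.edgeSet → Prop) [DecidablePred P] :
    ({e // P e} → ZMod 2) →ₗ[ZMod 2] (G.edgeSet → ZMod 2) where
  toFun c e := if h : P e then c ⟨e, h⟩ else 0
  map_add' c c' := by
    ext e
    by_cases h : P e <;> simp [h]
  map_smul' r c := by
    ext e
    by_cases h : P e <;> simp [h]

lemma ext0_inj (P : G.edgeSet → Prop) [DecidablePred P] : Function.Injective (ext0 G P) := by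
  intro c c' h
  ext ⟨e, he⟩
  have := congrFun h e
  simpa [ext0, he] using this

/-- the sum of a boundary is zero -/
lemma sum_bd1 (z : G.edgeSet → ZMod 2) : ∑ v, bd1 G z v = 0 := by
  have h1 : ∑ v, bd1 G z v = ∑ d : G.Dart, z ⟨d.edge, d.edge_mem⟩ := by
    show ∑ v, ∑ d : G.Dart with d.fst = v, z ⟨d.edge, d.edge_mem⟩ = _
    exact Finset.sum_fiberwise Finset.univ (fun d : G.Dart => d.fst) (fun d => z ⟨d.edge, d.edge_mem⟩)
  rw [h1]
  refine Finset.sum_involution (fun d _ => d.symm) ?_ ?_ ?_ ?_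
  · intro d _
    have : (⟨d.symm.edge, d.symm.edge_mem⟩ : G.edgeSet) = ⟨d.edge, d.edge_mem⟩ :=
      Subtype.ext d.edge_symm
    rw [this]
    exact CharTwo.add_self_eq_zero _
  · intro d _ _
    exact d.symm_ne
  · intro d _
    exact Finset.mem_univ _
  · intro d _
    exact d.symm_symm

lemma card_edges_U_le (hσ : IsRotationSystem G σ)
    (hex : LinearMap.range (bd2 G σ) = LinearMap.ker (bd1 G))
    (hU : U.Nonempty) (hface : Nonempty (Face G σ)) :
    {e ∈ G.edgeSet | ∀ v ∈ e, v ∈ U}.ncard + 2 ≤ U.ncard + Nat.card (Cls G σ U) := by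
  classical
  obtain ⟨u0, hu0⟩ := hU
  let P : G.edgeSet → Prop := fun e => ∀ v ∈ e.1, v ∈ U
  let W := {v : V // v ∈ U ∧ v ≠ u0}
  let ρ : (V → ZMod 2) →ₗ[ZMod 2] (W → ZMod 2) := LinearMap.funLeft (ZMod 2) (ZMod 2) Subtype.val
  let R : ({e // P e} → ZMod 2) →ₗ[ZMod 2] (V → ZMod 2) := (bd1 G).comp (ext0 G P)
  have hR0 : ∀ c v, v ∉ U → R c v = 0 := by
    intro c v hv
    show ∑ d : G.Dart with d.fst = v, ext0 G P c ⟨d.edge, d.edge_mem⟩ = 0
    apply Finset.sum_eq_zero
    intro d hd
    rw [Finset.mem_filter] at hd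
    have : ¬ P ⟨d.edge, d.edge_mem⟩ := by
      intro h
      apply hv
      apply h
      rw [← hd.2]
      exact Sym2.mem_mk_left d.fst d.snd
    show (if h : P ⟨d.edge, d.edge_mem⟩ then c ⟨_, h⟩ else 0) = 0
    rw [dif_neg this]
  have hker : LinearMap.ker (ρ.comp R) ≤ LinearMap.ker R := by
    intro c hc
    rw [LinearMap.mem_ker] at hc ⊢
    have h1 : ∀ v, v ≠ u0 → R c v = 0 := by
      intro v hv
      by_cases hvU : v ∈ U
      · exact congrFun hc ⟨v, hvU, hv⟩
      · exact hR0 c v hvU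
    have h2 : R c u0 = 0 := by
      have h3 := sum_bd1 G (ext0 G P c)
      rw [Finset.sum_eq_single u0] at h3
      · exact h3
      · intro v _ hv
        exact h1 v hv
      · intro h
        exact absurd (Finset.mem_univ _) h
    ext v
    by_cases hv : v = u0
    · rw [hv]; exact h2
    · exact h1 v hv
  have h1 := (ρ.comp R).finrank_range_add_finrank_ker
  have h2 := Submodule.finrank_mono hker
  have h3 : Module.finrank (ZMod 2) (LinearMap.range (ρ.comp R)) ≤ Fintype.card W := by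
    rw [← Module.finrank_fintype_fun_eq_card (ZMod 2)]
    exact Submodule.finrank_le _
  have h4 : Fintype.card W + 1 = U.ncard := by
    have e1 : Fintype.card W = (U \ {u0}).ncard := by
      rw [← Nat.card_coe_set_eq, ← Nat.card_eq_fintype_card]
      rfl
    rw [e1]
    exact Set.ncard_sdiff_singleton_add_one hu0 (Set.toFinite _)
  have h5 : Module.finrank (ZMod 2) ({e // P e} → ZMod 2) =
      {e ∈ G.edgeSet | ∀ v ∈ e, v ∈ U}.ncard := by
    rw [Module.finrank_fintype_fun_eq_card, ← Nat.card_coe_set_eq, ← Nat.card_eq_fintype_card]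
    refine Nat.card_congr ⟨fun e => ⟨e.1.1, e.1.2, e.2⟩, fun e => ⟨⟨e.1, e.2.1⟩, e.2.2⟩, ?_, ?_⟩
    · intro e; rfl
    · intro e; rfl
  -- ker R embeds in range bdC
  have h6 : Module.finrank (ZMod 2) (LinearMap.ker R) ≤
      Module.finrank (ZMod 2) (LinearMap.range (bdC G σ U)) := by
    have hmap : (LinearMap.ker R).map (ext0 G P) ≤ LinearMap.range (bdC G σ U) := by
      rintro _ ⟨c, hc, rfl⟩
      apply mem_range_bdC G σ U hex
      · exact hc
      · intro e he
        show (if h : P e then c ⟨_, h⟩ else 0) = 0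
        rw [dif_neg he]
    have h7 := Submodule.finrank_mono hmap
    have h8 : Module.finrank (ZMod 2) ((LinearMap.ker R).map (ext0 G P)) =
        Module.finrank (ZMod 2) (LinearMap.ker R) :=
      (Submodule.equivMapOfInjective (ext0 G P) (ext0_inj G P) _).finrank_eq.symm
    rw [h8] at h7
    exact h7
  have h9 := (bdC G σ U).finrank_range_add_finrank_ker
  have : Fintype (Cls G σ U) := Fintype.ofFinite _
  rw [Module.finrank_fintype_fun_eq_card] at h9
  have h10 : 0 < Module.finrank (ZMod 2) (LinearMap.ker (bdC G σ U)) := by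
    obtain ⟨f0⟩ := hface
    have hmem : (fun _ => 1 : Cls G σ U → ZMod 2) ∈ LinearMap.ker (bdC G σ U) := by
      rw [LinearMap.mem_ker]
      ext ⟨e, he⟩
      induction e using Sym2.ind with
      | _ a b =>
        exact (bdC_apply G σ U (fun _ => 1) ⟨(a, b), he⟩).trans
          (CharTwo.add_self_eq_zero (1 : ZMod 2))
    rw [Module.finrank_pos_iff]
    refine ⟨⟨⟨_, hmem⟩, 0, ?_⟩⟩
    intro h
    have := congrFun (congrArg Subtype.val h) (Quotient.mk _ f0)
    exact one_ne_zero this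
  rw [Nat.card_eq_fintype_card]
  omega

lemma four_mul_cls_le (hσ : IsRotationSystem G σ) (hG : G.Connected) (hfree : G.CliqueFree 3)
    (h2 : 2 ≤ Nat.card (Cls G σ U)) :
    4 * Nat.card (Cls G σ U) ≤ 2 * {e ∈ G.edgeSet | ∀ v ∈ e, v ∈ U}.ncard := by
  classical
  have : Fintype (Cls G σ U) := Fintype.ofFinite _
  rw [Nat.card_eq_fintype_card] at h2 ⊢
  let P : G.edgeSet → Prop := fun e => ∀ v ∈ e.1, v ∈ U
  let z : Cls G σ U → (G.edgeSet → ZMod 2) := fun q => bdC G σ U (Pi.single q 1)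
  have hz : ∀ q, 4 ≤ (Finset.univ.filter fun e => z q e ≠ 0).card := by
    intro q
    apply four_le_support G hfree
    · exact bd1_bd2 G σ hσ _
    · intro h0
      obtain ⟨q', hq'⟩ := Fintype.exists_ne_of_one_lt_card (by omega) q
      have h1 : bd2 G σ (fun f => (Pi.single q 1 : Cls G σ U → ZMod 2) (Quotient.mk _ f)) = 0 := h0
      induction q using Quotient.inductionOn with
      | _ f =>
        induction q' using Quotient.inductionOn with
        | _ f' =>
          have h3 := ker_bd2 G σ hσ hG _ h1 f f'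
          rw [Pi.single_eq_same, Pi.single_eq_of_ne hq'] at h3
          exact one_ne_zero h3
  have hsum : ∑ q, (Finset.univ.filter fun e => z q e ≠ 0).card ≤
      ∑ e : G.edgeSet, if P e then 2 else 0 := by
    simp only [Finset.card_filter]
    rw [Finset.sum_comm]
    apply Finset.sum_le_sum
    rintro ⟨e, he⟩ _
    induction e using Sym2.ind with
    | _ a b =>
      let d : G.Dart := ⟨(a, b), he⟩
      have hzd : ∀ q, z q ⟨s(a, b), he⟩ = (Pi.single q 1 : Cls G σ U → ZMod 2)
          (Quotient.mk _ (face G σ d)) + (Pi.single q 1 : Cls G σ U → ZMod 2)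
          (Quotient.mk _ (face G σ d.symm)) := fun q => bdC_apply G σ U _ d
      by_cases hP : P ⟨s(a, b), he⟩
      · rw [if_pos hP, ← Finset.card_filter]
        have hsub : (Finset.univ.filter fun q => z q ⟨s(a, b), he⟩ ≠ 0) ⊆
            {Quotient.mk _ (face G σ d), Quotient.mk _ (face G σ d.symm)} := by
          intro q hq
          rw [Finset.mem_filter, hzd] at hq
          rw [Finset.mem_insert, Finset.mem_singleton]
          by_contra hcon
          push Not at hcon
          apply hq.2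
          rw [Pi.single_eq_of_ne hcon.1.symm, Pi.single_eq_of_ne hcon.2.symm, add_zero]
        exact (Finset.card_le_card hsub).trans Finset.card_le_two
      · rw [if_neg hP]
        apply le_of_eq
        apply Finset.sum_eq_zero
        intro q _
        rw [if_neg]
        rw [not_not]
        exact bdC_outside G σ U _ d hP
  have hcount : ∑ e : G.edgeSet, (if P e then 2 else 0) =
      2 * {e ∈ G.edgeSet | ∀ v ∈ e, v ∈ U}.ncard := by
    rw [← Finset.sum_filter, Finset.sum_const, smul_eq_mul, mul_comm]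
    congr 1
    rw [← Nat.card_coe_set_eq, ← Fintype.card_subtype, ← Nat.card_eq_fintype_card]
    refine Nat.card_congr ⟨fun e => ⟨e.1.1, e.1.2, e.2⟩, fun e => ⟨⟨e.1, e.2.1⟩, e.2.2⟩, ?_, ?_⟩
    · intro e; rfl
    · intro e; rfl
  have h4 : ∑ _q : Cls G σ U, 4 ≤ ∑ q, (Finset.univ.filter fun e => z q e ≠ 0).card :=
    Finset.sum_le_sum fun q _ => hz q
  rw [Finset.sum_const, Finset.card_univ, smul_eq_mul] at h4
  omega

end U

/-- A connected planar triangle-free graph: every non-empty vertex set `U` spans at most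
`2 |U| - 2` edges. -/
theorem sparse_of_planar (hG : G.Connected) (hfree : G.CliqueFree 3) (hpl : IsPlanar G)
    (U : Set V) (hU : U.Nonempty) :
    {e ∈ G.edgeSet | ∀ v ∈ e, v ∈ U}.ncard + 2 ≤ 2 * U.ncard := by
  have hU1 : 1 ≤ U.ncard := (Set.ncard_pos (Set.toFinite _)).2 hU
  rcases hpl with h | ⟨σ, hσ, he⟩
  · have : {e ∈ G.edgeSet | ∀ v ∈ e, v ∈ U} = ∅ := by
      rw [h]; ext e; simp
    rw [this, Set.ncard_empty]
    omega
  · by_cases hface : Nonempty (Face G σ)
    · have hex := exact_of_euler G σ hσ hG he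
      have h1 := card_edges_U_le G σ U hσ hex hU hface
      by_cases h2 : 2 ≤ Nat.card (Cls G σ U)
      · have h3 := four_mul_cls_le G σ U hσ hG hfree h2
        omega
      · omega
    · have : {e ∈ G.edgeSet | ∀ v ∈ e, v ∈ U} = ∅ := by
        ext e
        simp only [Set.mem_ofPred_eq, Set.mem_empty_iff_false, iff_false, not_and]
        intro hem
        exfalso
        induction e using Sym2.ind with
        | _ a b => exact hface ⟨face G σ ⟨(a, b), hem⟩⟩
      rw [this, Set.ncard_empty]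
      omega

end Pool.Agent.Helper65.TT.Planar
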