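import Mathlib

set_option autoImplicit false

namespace Pool.Agent.Helper65.TT

open SimpleGraph

variable {V : Type*}

/-- delete the edge `xy`, add the edge `uv` -/
def sw (H : SimpleGraph V) (x y u v : V) : SimpleGraph V :=
  H.deleteEdges {s(x, y)} ⊔ edge u v

lemma sw_adj (H : SimpleGraph V) (x y u v a b : V) :
    (sw H x y u v).Adj a b ↔
      (H.Adj a b ∧ s(a, b) ≠ s(x, y)) ∨ (s(a, b) = s(u, v) ∧ u ≠ v) := by
  unfold sw
  rw [sup_adj, deleteEdges_adj, edge_adj, Set.mem_singleton_iff, Sym2.eq_iff (z := u)]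
  constructor
  · rintro (h | ⟨h | h, h'⟩)
    · left; exact h
    · right; refine ⟨Or.inl h, ?_⟩; rw [← h.1, ← h.2]; exact h'
    · right; refine ⟨Or.inr h, ?_⟩; rw [← h.1, ← h.2]; exact h'.symm
  · rintro (h | ⟨h | h, h'⟩)
    · left; exact h
    · right; refine ⟨Or.inl h, ?_⟩; rw [h.1, h.2]; exact h'
    · right; refine ⟨Or.inr h, ?_⟩; rw [h.1, h.2]; exact h'.symm

/-- a spanning tree `T` and a forest `F` that partition the edges of `G` -/
structure Dec (G T F : SimpleGraph V) : Prop where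
  hT : T.IsTree
  hF : F.IsAcyclic
  hG : ∀ a b, G.Adj a b ↔ T.Adj a b ∨ F.Adj a b
  hd : ∀ a b, T.Adj a b → ¬ F.Adj a b

lemma not_reachable_of_closed {H : SimpleGraph V} (S : Set V) {x y : V}
    (hS : ∀ a ∈ S, ∀ b, H.Adj a b → b ∈ S) (hx : x ∈ S) (hy : y ∉ S) : ¬ H.Reachable x y := by
  rintro ⟨p⟩
  obtain ⟨d, _, h1, h2⟩ := p.exists_boundary_dart S hx hy
  exact h2 (hS _ h1 _ d.adj)

/-- a path in a tree whose edges contain `xy`: deleting `xy` separates the ends -/
lemma not_reachable_delete {T : SimpleGraph V} (hT : T.IsTree) {u v x y : V} (p : T.Walk u v)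
    (hp : p.IsPath) (hxy : s(x, y) ∈ p.edges) : ¬ (T.deleteEdges {s(x, y)}).Reachable u v := by
  classical
  intro h
  rw [reachable_deleteEdges_iff_exists_walk] at h
  obtain ⟨q, hq⟩ := h
  have h1 : q.bypass = p :=
    (hT.existsUnique_path u v).unique q.bypass_isPath hp
  apply hq
  apply q.edges_bypass_subset_edges
  rw [h1]
  exact hxy

lemma sw_isTree {T : SimpleGraph V} (hT : T.IsTree) {u v x y : V} (p : T.Walk u v)
    (hp : p.IsPath) (hxy : s(x, y) ∈ p.edges) (huv : ¬ T.Adj u v) (hne : u ≠ v) :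
    (sw T x y u v).IsTree := by
  classical
  have hadjxy : T.Adj x y := p.adj_of_mem_edges hxy
  have hac : (sw T x y u v).IsAcyclic := by
    apply IsAcyclic.sup_edge_of_not_reachable (not_reachable_delete hT p hp hxy)
    exact hT.isAcyclic.anti (deleteEdges_le _)
  refine ⟨?_, hac⟩
  -- connectivity
  have hconn : (T ⊔ edge u v).Connected := hT.connected.mono le_sup_left
  have hle : T ≤ T ⊔ edge u v := le_sup_left
  have hcyc : (Walk.cons (show (T ⊔ edge u v).Adj v u by
      rw [sup_adj, edge_adj]; right; exact ⟨Or.inr ⟨rfl, rfl⟩, hne.symm⟩) (p.mapLe hle)).IsCycle := by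
    rw [Walk.cons_isCycle_iff]
    refine ⟨(Walk.isPath_mapLe hle).2 hp, ?_⟩
    rw [Walk.edges_mapLe_eq_edges]
    intro h
    exact huv (p.adj_of_mem_edges h).symm
  have hnb : ¬ (T ⊔ edge u v).IsBridge s(x, y) := by
    intro hb
    refine hb.notMem_edges_of_isCycle hcyc ?_
    rw [Walk.edges_cons, List.mem_cons]
    right
    rw [Walk.edges_mapLe_eq_edges]
    exact hxy
  have := hconn.connected_delete_edge_of_not_isBridge hnb
  have heq : (T ⊔ edge u v).deleteEdges {s(x, y)} = sw T x y u v := by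
    ext a b
    rw [sw_adj, deleteEdges_adj, sup_adj, edge_adj]
    simp only [Set.mem_singleton_iff]
    constructor
    · rintro ⟨h | ⟨h, h'⟩, h2⟩
      · left; exact ⟨h, h2⟩
      · right
        refine ⟨?_, hne⟩
        rcases h with ⟨rfl, rfl⟩ | ⟨rfl, rfl⟩
        · rfl
        · exact Sym2.eq_swap
    · rintro (⟨h, h2⟩ | ⟨h, _⟩)
      · exact ⟨Or.inl h, h2⟩
      · rw [Sym2.eq_iff] at h
        have hnxy : s(a, b) ≠ s(x, y) := by
          intro h3
          apply huv
          have hab : T.Adj a b := by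
            rw [← mem_edgeSet, h3, mem_edgeSet]; exact hadjxy
          rcases h with ⟨rfl, rfl⟩ | ⟨rfl, rfl⟩
          · exact hab
          · exact hab.symm
        refine ⟨Or.inr ⟨h, ?_⟩, hnxy⟩
        rcases h with ⟨rfl, rfl⟩ | ⟨rfl, rfl⟩
        · exact hne
        · exact hne.symm
  rw [← heq]
  exact this

lemma Dec.swap {G T F : SimpleGraph V} (h : Dec G T F) {u v x y : V} (huv : F.Adj u v)
    (p : T.Walk u v) (hp : p.IsPath) (hxy : s(x, y) ∈ p.edges)
    (hr : ¬ (F.deleteEdges {s(u, v)}).Reachable x y) :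
    Dec G (sw T x y u v) (sw F u v x y) := by
  have hadjxy : T.Adj x y := p.adj_of_mem_edges hxy
  have hTuv : ¬ T.Adj u v := fun h1 => h.hd _ _ h1 huv
  refine ⟨sw_isTree h.hT p hp hxy hTuv huv.ne, ?_, ?_, ?_⟩
  · exact IsAcyclic.sup_edge_of_not_reachable hr (h.hF.anti (deleteEdges_le _))
  · intro a b
    rw [h.hG, sw_adj, sw_adj]
    constructor
    · rintro (h1 | h1)
      · by_cases h2 : s(a, b) = s(x, y)
        · right; right; exact ⟨h2, hadjxy.ne⟩
        · left; left; exact ⟨h1, h2⟩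
      · by_cases h2 : s(a, b) = s(u, v)
        · left; right; exact ⟨h2, huv.ne⟩
        · right; left; exact ⟨h1, h2⟩
    · rintro ((⟨h1, _⟩ | ⟨h1, _⟩) | (⟨h1, _⟩ | ⟨h1, _⟩))
      · left; exact h1
      · right; rw [← mem_edgeSet, h1, mem_edgeSet]; exact huv
      · right; exact h1
      · left; rw [← mem_edgeSet, h1, mem_edgeSet]; exact hadjxy
  · intro a b h1 h2
    rw [sw_adj] at h1 h2
    rcases h1 with ⟨h1, h1'⟩ | ⟨h1, _⟩ <;> rcases h2 with ⟨h2, h2'⟩ | ⟨h2, _⟩
    · exact h.hd _ _ h1 h2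
    · exact h1' h2
    · exact h2' h1
    · apply hTuv
      rw [← mem_edgeSet, ← h1, h2, mem_edgeSet]; exact hadjxy

/-- keep a path after a swap that does not touch it -/
lemma path_keep {T : SimpleGraph V} {a b u v x y : V} (p : T.Walk a b) (hp : p.IsPath)
    (hxy : s(x, y) ∉ p.edges) :
    ∃ q : (sw T x y u v).Walk a b, q.IsPath ∧ q.support = p.support ∧ q.edges = p.edges := by
  have h : ∀ e ∈ p.edges, e ∈ (sw T x y u v).edgeSet := by
    intro e he
    induction e using Sym2.ind with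
    | _ c d =>
      rw [mem_edgeSet, sw_adj]
      left
      refine ⟨p.adj_of_mem_edges he, ?_⟩
      intro h1
      rw [h1] at he
      exact hxy he
  exact ⟨p.transfer _ h, hp.transfer h, p.support_transfer h, p.edges_transfer h⟩

end Pool.Agent.Helper65.TT
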