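import Mathlib
import Pool.Agent.Helper65.TT.Swap

set_option autoImplicit false

namespace Pool.Agent.Helper65.TT

open SimpleGraph

variable {V : Type*}

/-- `uv` is a single-edge component of `F` -/
def IsoEdge (F : SimpleGraph V) (u v : V) : Prop :=
  F.Adj u v ∧ (∀ w, F.Adj u w → w = v) ∧ (∀ w, F.Adj v w → w = u)

/-- `a - b - c` is a component of `F` -/
def Cherry (F : SimpleGraph V) (a b c : V) : Prop :=
  a ≠ c ∧ F.Adj b a ∧ F.Adj b c ∧ (∀ w, F.Adj a w → w = b) ∧ (∀ w, F.Adj b w → w = a ∨ w = c) ∧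
    (∀ w, F.Adj c w → w = b)

/-- decomposition with the least number of vertices touched by the forest -/
structure Good (G T F : SimpleGraph V) : Prop where
  dec : Dec G T F
  min : ∀ T' F', Dec G T' F' → F.support.ncard ≤ F'.support.ncard

lemma Good.of_le {G T F T' F' : SimpleGraph V} (h : Good G T F) (h' : Dec G T' F')
    (hle : F'.support.ncard ≤ F.support.ncard) : Good G T' F' :=
  ⟨h', fun _ _ h'' => hle.trans (h.min _ _ h'')⟩

lemma ms {F : SimpleGraph V} {u v : V} (h : F.Adj u v) : u ∈ F.support :=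
  (mem_support F).2 ⟨v, h⟩

lemma IsoEdge.symm {F : SimpleGraph V} {u v : V} (h : IsoEdge F u v) : IsoEdge F v u :=
  ⟨h.1.symm, h.2.2, h.2.1⟩

lemma sw_support {F : SimpleGraph V} {u v x y : V} {z : V} (hz : z ∈ (sw F u v x y).support) :
    (∃ t, F.Adj z t ∧ s(z, t) ≠ s(u, v)) ∨ z = x ∨ z = y := by
  rw [mem_support] at hz
  obtain ⟨t, ht⟩ := hz
  rw [sw_adj] at ht
  rcases ht with ht | ⟨ht, _⟩
  · left; exact ⟨t, ht⟩
  · right
    rw [Sym2.eq_iff] at ht
    rcases ht with ht | ht
    · left; exact ht.1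
    · right; exact ht.1

section Fin
variable [Finite V]

lemma ncard_lt_two {A B : Set V} {u v x : V} (hu : u ∈ A) (hv : v ∈ A) (huv : u ≠ v)
    (h : ∀ z ∈ B, z = x ∨ (z ∈ A ∧ z ≠ u ∧ z ≠ v)) : B.ncard < A.ncard := by
  have h1 : B ⊆ insert x (A \ {u, v}) := by
    intro z hz
    rcases h z hz with h | ⟨h1, h2, h3⟩
    · left; exact h
    · right
      refine ⟨h1, ?_⟩
      simp only [Set.mem_insert_iff, Set.mem_singleton_iff, not_or]
      exact ⟨h2, h3⟩
  have h2 := Set.ncard_le_ncard h1 (Set.toFinite _)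
  have h3 := Set.ncard_insert_le x (A \ {u, v})
  have h4 : (A \ {u, v}).ncard + 2 = A.ncard := by
    have h5 : ({u, v} : Set V) ⊆ A := by
      intro z hz
      simp only [Set.mem_insert_iff, Set.mem_singleton_iff] at hz
      rcases hz with rfl | rfl <;> assumption
    have h6 := Set.ncard_sdiff_add_ncard_of_subset h5 (Set.toFinite _)
    rw [Set.ncard_pair huv] at h6
    exact h6
  omega

lemma ncard_le_two {A B : Set V} {u v x y : V} (hu : u ∈ A) (hv : v ∈ A) (huv : u ≠ v)
    (h : ∀ z ∈ B, z = x ∨ z = y ∨ (z ∈ A ∧ z ≠ u ∧ z ≠ v)) : B.ncard ≤ A.ncard := by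
  have h1 : B ⊆ insert x (insert y (A \ {u, v})) := by
    intro z hz
    rcases h z hz with h | h | ⟨h1, h2, h3⟩
    · left; exact h
    · right; left; exact h
    · right; right
      refine ⟨h1, ?_⟩
      simp only [Set.mem_insert_iff, Set.mem_singleton_iff, not_or]
      exact ⟨h2, h3⟩
  have h2 := Set.ncard_le_ncard h1 (Set.toFinite _)
  have h3 := Set.ncard_insert_le x (insert y (A \ {u, v}))
  have h3' := Set.ncard_insert_le y (A \ {u, v})
  have h4 : (A \ {u, v}).ncard + 2 = A.ncard := by
    have h5 : ({u, v} : Set V) ⊆ A := by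
      intro z hz
      simp only [Set.mem_insert_iff, Set.mem_singleton_iff] at hz
      rcases hz with rfl | rfl <;> assumption
    have h6 := Set.ncard_sdiff_add_ncard_of_subset h5 (Set.toFinite _)
    rw [Set.ncard_pair huv] at h6
    exact h6
  omega

lemma ncard_lt_one {A B : Set V} {u : V} (hu : u ∈ A)
    (h : ∀ z ∈ B, z ∈ A ∧ z ≠ u) : B.ncard < A.ncard := by
  apply Set.ncard_lt_ncard _ (Set.toFinite _)
  refine ⟨fun z hz => (h z hz).1, fun h1 => ?_⟩
  exact (h u (h1 hu)).2 rfl

lemma ncard_le_one {A B : Set V} {u x : V} (hu : u ∈ A)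
    (h : ∀ z ∈ B, z = x ∨ (z ∈ A ∧ z ≠ u)) : B.ncard ≤ A.ncard := by
  have h1 : B ⊆ insert x (A \ {u}) := by
    intro z hz
    rcases h z hz with h | ⟨h1, h2⟩
    · left; exact h
    · right
      exact ⟨h1, h2⟩
  have h2 := Set.ncard_le_ncard h1 (Set.toFinite _)
  have h3 := Set.ncard_insert_le x (A \ {u})
  have h4 := Set.ncard_sdiff_singleton_add_one hu (Set.toFinite _)
  omega

/-- Claim 1 -/
lemma claim1 {G T F : SimpleGraph V} (hg : Good G T F) {u v : V} (he : IsoEdge F u v)
    (p : T.Walk u v) (hp : p.IsPath) {w : V} (hw : w ∈ p.support) (hwF : w ∈ F.support) :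
    w = u ∨ w = v := by
  classical
  by_contra hcon
  push Not at hcon
  obtain ⟨d, hd, h1, h2⟩ := (p.takeUntil w hw).exists_boundary_dart
    {z | ¬ (z ∈ F.support ∧ z ≠ u ∧ z ≠ v)} (by simp) (by
      intro h; exact h ⟨hwF, hcon⟩)
  set x := d.fst with hx
  set y := d.snd with hy
  have h2' : y ∈ F.support ∧ y ≠ u ∧ y ≠ v := by
    by_contra h; exact h2 h
  have hxy : s(x, y) ∈ p.edges := by
    apply p.edges_takeUntil_subset_edges hw
    rw [Walk.edges, List.mem_map]
    exact ⟨d, hd, rfl⟩
  have hiso : ∀ z, ¬ (F.deleteEdges {s(u, v)}).Adj x z := by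
    intro z hz
    rw [deleteEdges_adj] at hz
    have hxs : x ∈ F.support := ms hz.1
    have : x = u ∨ x = v := by
      by_contra h
      push Not at h
      exact h1 ⟨hxs, h⟩
    apply hz.2
    rw [Set.mem_singleton_iff]
    rcases this with h | h
    · rw [h] at hz ⊢
      rw [he.2.1 z hz.1]
    · rw [h] at hz ⊢
      rw [he.2.2 z hz.1]
      exact Sym2.eq_swap
  have hr : ¬ (F.deleteEdges {s(u, v)}).Reachable x y := by
    apply not_reachable_of_closed {x}
    · intro a ha b hab
      rw [Set.mem_singleton_iff] at ha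
      rw [ha] at hab
      exact absurd hab (hiso b)
    · rfl
    · intro h
      rw [Set.mem_singleton_iff] at h
      exact d.adj.ne h.symm
  have hdec := hg.dec.swap he.1 p hp hxy hr
  have := hg.min _ _ hdec
  have hlt : (sw F u v x y).support.ncard < F.support.ncard := by
    apply ncard_lt_two (u := u) (v := v) (x := x) (ms he.1) (ms he.1.symm) he.1.ne
    intro z hz
    rcases sw_support hz with ⟨t, ht, hne⟩ | h | h
    · right
      refine ⟨ms ht, ?_, ?_⟩
      · rintro rfl
        apply hne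
        rw [he.2.1 t ht]
      · rintro rfl
        apply hne
        rw [he.2.2 t ht]
        exact Sym2.eq_swap
    · left; exact h
    · right; rw [h]; exact h2'
  omega

lemma Cherry.ne_of_iso {F : SimpleGraph V} {a b c u v : V} (hc : Cherry F a b c)
    (he : IsoEdge F u v) : a ≠ u ∧ b ≠ u ∧ c ≠ u := by
  obtain ⟨hac, hba, hbc, ha, hb, hc'⟩ := hc
  refine ⟨?_, ?_, ?_⟩
  · rintro rfl
    have h1 := ha v he.1
    subst h1
    exact hac (he.2.2 c hbc).symm
  · rintro rfl
    exact hac ((he.2.1 a hba).trans (he.2.1 c hbc).symm)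
  · rintro rfl
    have h1 := hc' v he.1
    subst h1
    exact hac (he.2.2 a hba)

/-- Claim 3 -/
lemma claim3 {G T F : SimpleGraph V} (hg : Good G T F) {a b c : V} (hc : Cherry F a b c)
    (p : T.Walk b a) (hp : p.IsPath) {w : V} (hw : s(b, w) ∈ p.edges) : w ∉ F.support := by
  obtain ⟨hac, hba, hbc, ha, hb, hc'⟩ := hc
  intro hwF
  have hTbw : T.Adj b w := p.adj_of_mem_edges hw
  have hwa : w ≠ a := by rintro rfl; exact hg.dec.hd _ _ hTbw hba
  have hwc : w ≠ c := by rintro rfl; exact hg.dec.hd _ _ hTbw hbc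
  have hr : ¬ (F.deleteEdges {s(b, a)}).Reachable b w := by
    apply not_reachable_of_closed {b, c}
    · intro x hx y hxy
      rw [deleteEdges_adj] at hxy
      simp only [Set.mem_insert_iff, Set.mem_singleton_iff] at hx hxy ⊢
      rcases hx with rfl | rfl
      · rcases hb y hxy.1 with rfl | rfl
        · exact absurd rfl hxy.2
        · right; rfl
      · left; exact hc' y hxy.1
    · simp
    · simp only [Set.mem_insert_iff, Set.mem_singleton_iff, not_or]
      exact ⟨hTbw.ne.symm, hwc⟩
  have hdec := hg.dec.swap hba p hp hw hr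
  have := hg.min _ _ hdec
  have hlt : (sw F b a b w).support.ncard < F.support.ncard := by
    apply ncard_lt_one (u := a) (ms hba.symm)
    intro z hz
    rcases sw_support hz with ⟨t, ht, hne⟩ | h | h
    · refine ⟨ms ht, ?_⟩
      rintro rfl
      apply hne
      rw [ha t ht]
      exact Sym2.eq_swap
    · rw [h]; exact ⟨ms hba, hba.ne⟩
    · rw [h]; exact ⟨hwF, hwa⟩
  omega

/-- Claim 2 -/
lemma claim2 {G T F : SimpleGraph V} (hg : Good G T F) {u v u' v' : V} (he : IsoEdge F u v)
    (he' : IsoEdge F u' v') (hne : s(u, v) ≠ s(u', v'))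
    (p : T.Walk u v) (hp : p.IsPath) (p' : T.Walk u' v') (hp' : p'.IsPath) {w : V}
    (hw : w ∈ p.support) : w ∉ p'.support := by
  classical
  intro hw'
  have huu : u ≠ u' := by
    rintro rfl; apply hne; rw [he.2.1 v' he'.1]
  have huv : u ≠ v' := by
    rintro rfl; apply hne; rw [he.2.1 u' he'.1.symm]; exact Sym2.eq_swap
  have hvu : v ≠ u' := by
    rintro rfl; apply hne; rw [he.2.2 v' he'.1]; exact Sym2.eq_swap
  have hvv : v ≠ v' := by
    rintro rfl; apply hne; rw [he.2.2 u' he'.1.symm]
  obtain ⟨d, hd, h1, h2⟩ := (p.takeUntil w hw).exists_boundary_dart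
    {z | z ∉ p'.support} (by
      intro h
      rcases claim1 hg he' p' hp' h (ms he.1) with h | h
      · exact huu h
      · exact huv h) (by
      intro h; exact h hw')
  set x := d.fst with hx
  set y := d.snd with hy
  have h1' : x ∉ p'.support := h1
  have h2' : y ∈ p'.support := by
    by_contra h; exact h2 h
  have hxy : s(x, y) ∈ p.edges := by
    apply p.edges_takeUntil_subset_edges hw
    rw [Walk.edges, List.mem_map]
    exact ⟨d, hd, rfl⟩
  have hxp : x ∈ p.support := p.fst_mem_support_of_mem_edges hxy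
  have hyp : y ∈ p.support := p.snd_mem_support_of_mem_edges hxy
  have hyF : y ∉ F.support := by
    intro h
    rcases claim1 hg he p hp hyp h with h3 | h3 <;>
      rcases claim1 hg he' p' hp' h2' h with h4 | h4
    · exact huu (h3.symm.trans h4)
    · exact huv (h3.symm.trans h4)
    · exact hvu (h3.symm.trans h4)
    · exact hvv (h3.symm.trans h4)
  have hr : ¬ (F.deleteEdges {s(u, v)}).Reachable x y := by
    rw [reachable_comm]
    apply not_reachable_of_closed {y}
    · intro a ha b hab
      rw [Set.mem_singleton_iff] at ha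
      rw [ha, deleteEdges_adj] at hab
      exact absurd (ms hab.1) hyF
    · rfl
    · intro h
      rw [Set.mem_singleton_iff] at h
      exact d.adj.ne h
  have hdec := hg.dec.swap he.1 p hp hxy hr
  have hle : (sw F u v x y).support.ncard ≤ F.support.ncard := by
    apply ncard_le_two (u := u) (v := v) (x := x) (y := y) (ms he.1) (ms he.1.symm) he.1.ne
    intro z hz
    rcases sw_support hz with ⟨t, ht, hne⟩ | h | h
    · right; right
      refine ⟨ms ht, ?_, ?_⟩
      · rintro rfl
        apply hne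
        rw [he.2.1 t ht]
      · rintro rfl
        apply hne
        rw [he.2.2 t ht]
        exact Sym2.eq_swap
    · left; exact h
    · right; left; exact h
  have hg' := hg.of_le hdec hle
  have hxy' : s(x, y) ∉ p'.edges := fun h => h1' (p'.fst_mem_support_of_mem_edges h)
  obtain ⟨q, hq, hqs, hqe⟩ := path_keep (u := u) (v := v) p' hp' hxy'
  have hu'x : u' ≠ x := fun h => h1' (h ▸ p'.start_mem_support)
  have hv'x : v' ≠ x := fun h => h1' (h ▸ p'.end_mem_support)
  have hu'y : u' ≠ y := fun h => hyF (h ▸ ms he'.1)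
  have hv'y : v' ≠ y := fun h => hyF (h ▸ ms he'.1.symm)
  have he'' : IsoEdge (sw F u v x y) u' v' := by
    refine ⟨?_, ?_, ?_⟩
    · rw [sw_adj]; left; exact ⟨he'.1, hne.symm⟩
    · intro z hz
      rw [sw_adj] at hz
      rcases hz with hz | ⟨hz, _⟩
      · exact he'.2.1 z hz.1
      · rw [Sym2.eq_iff] at hz
        rcases hz with hz | hz
        · exact absurd hz.1 hu'x
        · exact absurd hz.1 hu'y
    · intro z hz
      rw [sw_adj] at hz
      rcases hz with hz | ⟨hz, _⟩
      · exact he'.2.2 z hz.1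
      · rw [Sym2.eq_iff] at hz
        rcases hz with hz | hz
        · exact absurd hz.1 hv'x
        · exact absurd hz.1 hv'y
  have hysup : y ∈ (sw F u v x y).support := by
    refine ms (v := x) ?_
    rw [sw_adj]; right; exact ⟨Sym2.eq_swap, d.adj.ne⟩
  rcases claim1 hg' he'' q hq (hqs ▸ h2') hysup with h | h
  · exact hu'y h.symm
  · exact hv'y h.symm

/-- Claim 4 -/
lemma claim4 {G T F : SimpleGraph V} (hg : Good G T F) {u v a b c : V} (he : IsoEdge F u v)
    (hc : Cherry F a b c) (p : T.Walk u v) (hp : p.IsPath) (q : T.Walk b a) (hq : q.IsPath)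
    {w : V} (hw : s(b, w) ∈ q.edges) : w ∉ p.support := by
  classical
  intro hwp
  have hwF := claim3 hg hc q hq hw
  have hTbw : T.Adj b w := q.adj_of_mem_edges hw
  have hwu : w ≠ u := fun h => hwF (h ▸ ms he.1)
  have hwv : w ≠ v := fun h => hwF (h ▸ ms he.1.symm)
  obtain ⟨hau, hbu, hcu⟩ := hc.ne_of_iso he
  obtain ⟨hav, hbv, hcv⟩ := hc.ne_of_iso he.symm
  have hbp : b ∉ p.support := by
    intro h
    rcases claim1 hg he p hp h (ms hc.2.1) with h | h
    · exact hbu h
    · exact hbv h
  -- the two edges of `p` at `w`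
  have hac := hg.dec.hT.isAcyclic
  obtain ⟨z, hzp, hzq⟩ : ∃ z, s(w, z) ∈ p.edges ∧ s(w, z) ∉ q.edges := by
    set p1 := p.takeUntil w hwp with hp1
    set p2 := p.dropUntil w hwp with hp2
    have hn1 : ¬ p1.Nil := by
      intro h; exact hwu h.eq.symm
    have hn2 : ¬ p2.Nil := by
      intro h; exact hwv h.eq
    have hx1 : s(p1.penultimate, w) ∈ p1.edges := by
      have := p1.mk_penultimate_end_mem_edges hn1
      exact this
    have hy1 : s(w, p2.snd) ∈ p2.edges := p2.mk_start_snd_mem_edges hn2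
    have hx : s(w, p1.penultimate) ∈ p.edges := by
      rw [Sym2.eq_swap]; exact p.edges_takeUntil_subset_edges hwp hx1
    have hy : s(w, p2.snd) ∈ p.edges := p.edges_dropUntil_subset_edges hwp hy1
    have hneq : p1.penultimate ≠ p2.snd := by
      intro h
      have hin1 : p2.snd ∈ p1.support := h ▸ p1.fst_mem_support_of_mem_edges hx1
      have hin2 : p2.snd ∈ p2.support := p2.snd_mem_support_of_mem_edges hy1
      have hspec : (p1.append p2).IsPath := by rw [hp1, hp2, Walk.take_spec]; exact hp
      have hne : p2.snd ≠ w := (p2.adj_snd hn2).ne.symm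
      exact hspec.ne_of_mem_support_of_append hne hin1 hin2 rfl
    have hxb : p1.penultimate ≠ b := fun h => hbp (h ▸ p.snd_mem_support_of_mem_edges hx)
    have hyb : p2.snd ≠ b := fun h => hbp (h ▸ p.snd_mem_support_of_mem_edges hy)
    have hqn : ¬ q.Nil := by
      intro h; exact hc.2.1.ne h.eq
    have hsnd : w = q.snd := hac.eq_snd_of_adj_start hq hTbw (q.snd_mem_support_of_mem_edges hw)
    -- every edge `w z` of `q` with `z ≠ b` has `z = q.tail.snd`
    have huniq : ∀ z, z ≠ b → s(w, z) ∈ q.edges → z = q.tail.snd := by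
      intro z hzb hz
      have hadj : T.Adj w z := q.adj_of_mem_edges hz
      have hmem : s(w, z) ∈ q.tail.edges := by
        rw [← Walk.cons_tail_eq q hqn, Walk.edges_cons, List.mem_cons] at hz
        rcases hz with hz | hz
        · exfalso
          rw [Sym2.eq_iff] at hz
          rcases hz with hz | hz
          · exact hTbw.ne hz.1.symm
          · exact hzb hz.2
        · exact hz
      have hz2 : z ∈ q.tail.support := q.tail.snd_mem_support_of_mem_edges hmem
      have hadj' : T.Adj q.snd z := hsnd ▸ hadj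
      exact hac.eq_snd_of_adj_start hq.tail hadj' hz2
    by_contra hcon
    push Not at hcon
    have e1 := huniq _ hxb (hcon _ hx)
    have e2 := huniq _ hyb (hcon _ hy)
    exact hneq (e1.trans e2.symm)
  have hadjwz : T.Adj w z := p.adj_of_mem_edges hzp
  have hzpsup : z ∈ p.support := p.snd_mem_support_of_mem_edges hzp
  have hza : z ≠ a ∧ z ≠ b ∧ z ≠ c := by
    have key : ∀ t, t ∈ F.support → t ≠ u → t ≠ v → z ≠ t := by
      rintro t ht h1 h2 rfl
      rcases claim1 hg he p hp hzpsup ht with h | h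
      · exact h1 h
      · exact h2 h
    exact ⟨key a (ms hc.2.1.symm) hau hav, key b (ms hc.2.1) hbu hbv,
      key c (ms hc.2.2.1.symm) hcu hcv⟩
  have hr : ¬ (F.deleteEdges {s(u, v)}).Reachable w z := by
    apply not_reachable_of_closed {w}
    · intro a ha b hab
      rw [Set.mem_singleton_iff] at ha
      rw [ha, deleteEdges_adj] at hab
      exact absurd (ms hab.1) hwF
    · rfl
    · intro h
      rw [Set.mem_singleton_iff] at h
      exact hadjwz.ne h.symm
  have hdec := hg.dec.swap he.1 p hp hzp hr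
  have hle : (sw F u v w z).support.ncard ≤ F.support.ncard := by
    apply ncard_le_two (u := u) (v := v) (x := w) (y := z) (ms he.1) (ms he.1.symm) he.1.ne
    intro z hz
    rcases sw_support hz with ⟨t, ht, hne⟩ | h | h
    · right; right
      refine ⟨ms ht, ?_, ?_⟩
      · rintro rfl
        apply hne
        rw [he.2.1 t ht]
      · rintro rfl
        apply hne
        rw [he.2.2 t ht]
        exact Sym2.eq_swap
    · left; exact h
    · right; left; exact h
  have hg' := hg.of_le hdec hle
  obtain ⟨q', hq', hqs, hqe⟩ := path_keep (u := u) (v := v) q hq hzq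
  have hwa : a ≠ w := fun h => hwF (h ▸ ms hc.2.1.symm)
  have hwb : b ≠ w := hTbw.ne
  have hwc : c ≠ w := fun h => hwF (h ▸ ms hc.2.2.1.symm)
  have hc' : Cherry (sw F u v w z) a b c := by
    obtain ⟨hac', hba, hbc, ha, hb, hcc⟩ := hc
    have hsub : ∀ s t, (sw F u v w z).Adj s t → s ≠ w → s ≠ z → F.Adj s t := by
      intro s t hst h1 h2
      rw [sw_adj] at hst
      rcases hst with h | ⟨h, _⟩
      · exact h.1
      · rw [Sym2.eq_iff] at h
        rcases h with h | h
        · exact absurd h.1 h1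
        · exact absurd h.1 h2
    refine ⟨hac', ?_, ?_, ?_, ?_, ?_⟩
    · rw [sw_adj]; left
      refine ⟨hba, ?_⟩
      intro h; rw [Sym2.eq_iff] at h
      rcases h with h | h
      · exact hbu h.1
      · exact hbv h.1
    · rw [sw_adj]; left
      refine ⟨hbc, ?_⟩
      intro h; rw [Sym2.eq_iff] at h
      rcases h with h | h
      · exact hbu h.1
      · exact hbv h.1
    · intro t ht; exact ha t (hsub _ _ ht hwa (Ne.symm hza.1))
    · intro t ht; exact hb t (hsub _ _ ht hwb (Ne.symm hza.2.1))
    · intro t ht; exact hcc t (hsub _ _ ht hwc (Ne.symm hza.2.2))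
  have hwsup : w ∈ (sw F u v w z).support := by
    refine ms (v := z) ?_
    rw [sw_adj]; right; exact ⟨rfl, hadjwz.ne⟩
  exact claim3 hg' hc' q' hq' (by rw [hqe]; exact hw) hwsup

/-- the set of single-edge components -/
def isoSet (F : SimpleGraph V) : Set (Sym2 V) := {e | ∃ u v, e = s(u, v) ∧ IsoEdge F u v}

/-- optimal decompositions -/
structure Best (G T F : SimpleGraph V) : Prop where
  good : Good G T F
  max : ∀ T' F', Good G T' F' → (isoSet F').ncard ≤ (isoSet F).ncard

lemma Cherry.disj {F : SimpleGraph V} {a b c a' b' c' : V} (hc : Cherry F a b c)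
    (hc' : Cherry F a' b' c') (hbb : b ≠ b') :
    b' ≠ a ∧ b' ≠ c ∧ a' ≠ a ∧ a' ≠ b ∧ a' ≠ c := by
  obtain ⟨h1, h2, h3, h4, h5, h6⟩ := hc
  obtain ⟨k1, k2, k3, k4, k5, k6⟩ := hc'
  refine ⟨?_, ?_, ?_, ?_, ?_⟩
  · rintro rfl
    exact k1 ((h4 a' k2).trans (h4 c' k3).symm)
  · rintro rfl
    exact k1 ((h6 a' k2).trans (h6 c' k3).symm)
  · rintro rfl
    exact hbb ((k4 b h2.symm))
  · rintro rfl
    exact h1 ((k4 a h2).trans (k4 c h3).symm)
  · rintro rfl
    exact hbb (k4 b h3.symm)

/-- Claim 5 -/
lemma claim5 {G T F : SimpleGraph V} (hb : Best G T F) {a b c a' b' c' : V}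
    (hc : Cherry F a b c) (hc' : Cherry F a' b' c') (hbb : b ≠ b')
    (q : T.Walk b a) (hq : q.IsPath) (q' : T.Walk b' a') (hq' : q'.IsPath)
    {w : V} (hw : s(b, w) ∈ q.edges) (hw' : s(b', w) ∈ q'.edges) : False := by
  classical
  have hg := hb.good
  have hwF := claim3 hg hc q hq hw
  have hTbw : T.Adj b w := q.adj_of_mem_edges hw
  have hTbw' : T.Adj b' w := q'.adj_of_mem_edges hw'
  obtain ⟨hb'a, hb'c, ha'a, ha'b, ha'c⟩ := hc.disj hc' hbb
  obtain ⟨hba', hbc', haa', hab', hac'⟩ := hc'.disj hc hbb.symm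
  have hwiso : ∀ (S : Set (Sym2 V)) (x : V), x ≠ w → ¬ (F.deleteEdges S).Reachable x w := by
    intro S x hx
    rw [reachable_comm]
    apply not_reachable_of_closed {w}
    · intro a ha b hab
      rw [Set.mem_singleton_iff] at ha
      rw [ha, deleteEdges_adj] at hab
      exact absurd (ms hab.1) hwF
    · rfl
    · intro h
      rw [Set.mem_singleton_iff] at h
      exact hx h
  have hwa : w ≠ a := fun h => hwF (h ▸ ms hc.2.1.symm)
  have hwc : w ≠ c := fun h => hwF (h ▸ ms hc.2.2.1.symm)
  by_cases hcase : s(b', w) ∈ q.edges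
  · -- swap `ba` with `b'w`
    have hdec := hg.dec.swap hc.2.1 q hq hcase (hwiso _ _ hTbw'.ne)
    have hle : (sw F b a b' w).support.ncard ≤ F.support.ncard := by
      apply ncard_le_one (u := a) (x := w) (ms hc.2.1.symm)
      intro z hz
      rcases sw_support hz with ⟨t, ht, hne⟩ | h | h
      · right
        refine ⟨ms ht, ?_⟩
        rintro rfl
        apply hne
        rw [hc.2.2.2.1 t ht]
        exact Sym2.eq_swap
      · right; rw [h]; exact ⟨ms hc'.2.1, hb'a⟩
      · left; exact h
    have hg' := hg.of_le hdec hle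
    have hmax := hb.max _ _ hg'
    have hadj : ∀ s t, (sw F b a b' w).Adj s t → s ≠ b' → s ≠ w → F.Adj s t ∧ s(s, t) ≠ s(b, a) := by
      intro s t hst h1 h2
      rw [sw_adj] at hst
      rcases hst with h | ⟨h, _⟩
      · exact h
      · rw [Sym2.eq_iff] at h
        rcases h with h | h
        · exact absurd h.1 h1
        · exact absurd h.1 h2
    have hsub : insert s(b, c) (isoSet F) ⊆ isoSet (sw F b a b' w) := by
      intro e he
      rcases he with rfl | ⟨u, v, rfl, he⟩
      · refine ⟨b, c, rfl, ?_, ?_, ?_⟩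
        · rw [sw_adj]; left
          refine ⟨hc.2.2.1, ?_⟩
          intro h; rw [Sym2.eq_iff] at h
          rcases h with h | h
          · exact hc.1 h.2.symm
          · exact hc.2.1.ne h.1
        · intro t ht
          obtain ⟨h1, h2⟩ := hadj b t ht hbb hTbw.ne
          rcases hc.2.2.2.2.1 t h1 with h | h
          · exact absurd (by rw [h]) h2
          · exact h
        · intro t ht
          obtain ⟨h1, h2⟩ := hadj c t ht hb'c.symm hwc.symm
          exact hc.2.2.2.2.2 t h1
      · obtain ⟨hau, hbu, hcu⟩ := hc.ne_of_iso he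
        obtain ⟨hav, hbv, hcv⟩ := hc.ne_of_iso he.symm
        obtain ⟨hau', hbu', hcu'⟩ := hc'.ne_of_iso he
        obtain ⟨hav', hbv', hcv'⟩ := hc'.ne_of_iso he.symm
        have huw : u ≠ w := fun h => hwF (h ▸ ms he.1)
        have hvw : v ≠ w := fun h => hwF (h ▸ ms he.1.symm)
        refine ⟨u, v, rfl, ?_, ?_, ?_⟩
        · rw [sw_adj]; left
          refine ⟨he.1, ?_⟩
          intro h; rw [Sym2.eq_iff] at h
          rcases h with h | h
          · exact hbu h.1.symm
          · exact hau h.1.symm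
        · intro t ht
          exact he.2.1 t (hadj u t ht hbu'.symm huw).1
        · intro t ht
          exact he.2.2 t (hadj v t ht hbv'.symm hvw).1
    have hnot : s(b, c) ∉ isoSet F := by
      rintro ⟨u, v, h, he⟩
      rw [Sym2.eq_iff] at h
      rcases h with h | h
      · exact (hc.ne_of_iso he).2.1 h.1
      · exact (hc.ne_of_iso he.symm).2.1 h.1
    have h1 := Set.ncard_le_ncard hsub (Set.toFinite _)
    rw [Set.ncard_insert_of_notMem hnot (Set.toFinite _)] at h1
    omega
  · -- swap `b'a'` with `b'w`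
    have hdec := hg.dec.swap hc'.2.1 q' hq' hw' (hwiso _ _ hTbw'.ne)
    have hle : (sw F b' a' b' w).support.ncard ≤ F.support.ncard := by
      apply ncard_le_one (u := a') (x := w) (ms hc'.2.1.symm)
      intro z hz
      rcases sw_support hz with ⟨t, ht, hne⟩ | h | h
      · right
        refine ⟨ms ht, ?_⟩
        rintro rfl
        apply hne
        rw [hc'.2.2.2.1 t ht]
        exact Sym2.eq_swap
      · right; rw [h]; exact ⟨ms hc'.2.1, hc'.2.1.ne⟩
      · left; exact h
    have hg' := hg.of_le hdec hle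
    obtain ⟨q2, hq2, hqs, hqe⟩ := path_keep (u := b') (v := a') q hq hcase
    have hc2 : Cherry (sw F b' a' b' w) a b c := by
      obtain ⟨h1, h2, h3, h4, h5, h6⟩ := hc
      have hsub : ∀ s t, (sw F b' a' b' w).Adj s t → s ≠ b' → s ≠ w → F.Adj s t := by
        intro s t hst h1 h2
        rw [sw_adj] at hst
        rcases hst with h | ⟨h, _⟩
        · exact h.1
        · rw [Sym2.eq_iff] at h
          rcases h with h | h
          · exact absurd h.1 h1
          · exact absurd h.1 h2
      refine ⟨h1, ?_, ?_, ?_, ?_, ?_⟩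
      · rw [sw_adj]; left
        refine ⟨h2, ?_⟩
        intro h; rw [Sym2.eq_iff] at h
        rcases h with h | h
        · exact hbb h.1
        · exact ha'b h.1.symm
      · rw [sw_adj]; left
        refine ⟨h3, ?_⟩
        intro h; rw [Sym2.eq_iff] at h
        rcases h with h | h
        · exact hbb h.1
        · exact ha'b h.1.symm
      · intro t ht; exact h4 t (hsub _ _ ht hb'a.symm hwa.symm)
      · intro t ht; exact h5 t (hsub _ _ ht hbb hTbw.ne)
      · intro t ht; exact h6 t (hsub _ _ ht hb'c.symm hwc.symm)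
    have hwsup : w ∈ (sw F b' a' b' w).support := by
      refine ms (v := b') ?_
      rw [sw_adj]; right; exact ⟨Sym2.eq_swap, hTbw'.ne⟩
    exact claim3 hg' hc2 q2 hq2 (by rw [hqe]; exact hw) hwsup

lemma exists_best {G : SimpleGraph V} (h : ∃ T F, Dec G T F) : ∃ T F, Best G T F := by
  classical
  -- minimal support
  have hgood : ∃ T F, Good G T F := by
    let P : ℕ → Prop := fun k => ∃ T F, Dec G T F ∧ F.support.ncard = k
    have hP : ∃ k, P k := by
      obtain ⟨T, F, hd⟩ := h
      exact ⟨_, T, F, hd, rfl⟩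
    obtain ⟨T, F, hd, hk⟩ := Nat.find_spec hP
    refine ⟨T, F, hd, ?_⟩
    intro T' F' hd'
    rw [hk]
    exact Nat.find_min' hP ⟨T', F', hd', rfl⟩
  let S : Set ℕ := {k | ∃ T F, Good G T F ∧ (isoSet F).ncard = k}
  have hne : S.Nonempty := by
    obtain ⟨T, F, hg⟩ := hgood
    exact ⟨_, T, F, hg, rfl⟩
  have hbdd : BddAbove S := by
    refine ⟨Nat.card (Sym2 V), ?_⟩
    rintro k ⟨T, F, _, rfl⟩
    exact Set.ncard_le_card _
  obtain ⟨T, F, hg, hk⟩ := Nat.sSup_mem hne hbdd
  refine ⟨T, F, hg, ?_⟩
  intro T' F' hg'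
  rw [hk]
  exact le_csSup hbdd ⟨T', F', hg', rfl⟩

end Fin

end Pool.Agent.Helper65.TT
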