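import Mathlib
import Pool.Agent.Helper65.TT.Exchange

set_option autoImplicit false

namespace Pool.Agent.Helper65.TT

open SimpleGraph

variable {V : Type*} [Fintype V] [DecidableEq V]

/-- private set of type A: a component with at least four vertices -/
def PA {F : SimpleGraph V} (C : F.ConnectedComponent) (S : Finset V) : Prop :=
  (∀ x, x ∈ S ↔ x ∈ C.supp) ∧ 4 ≤ S.card

/-- private set of type B: the fundamental cycle of a single-edge component -/
def PB (T F : SimpleGraph V) (C : F.ConnectedComponent) (S : Finset V) : Prop :=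
  ∃ u v, ∃ p : T.Walk u v, IsoEdge F u v ∧ F.connectedComponentMk u = C ∧ p.IsPath ∧
    ∀ x, x ∈ S ↔ x ∈ p.support

/-- private set of type C: a cherry and one more vertex -/
def PC (T F : SimpleGraph V) (C : F.ConnectedComponent) (S : Finset V) : Prop :=
  ∃ a b c w, ∃ p : T.Walk b a, Cherry F a b c ∧ F.connectedComponentMk b = C ∧ p.IsPath ∧
    s(b, w) ∈ p.edges ∧ S = {a, b, c, w}

/-- private sets of components -/
def Priv (T F : SimpleGraph V) (C : F.ConnectedComponent) (S : Finset V) : Prop :=
  PA C S ∨ PB T F C S ∨ PC T F C S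

omit [Fintype V] [DecidableEq V] in
lemma comp_eq {F : SimpleGraph V} {u v : V} (h : F.Adj u v) :
    F.connectedComponentMk u = F.connectedComponentMk v :=
  ConnectedComponent.connectedComponentMk_eq_of_adj h

lemma exists_priv {G T F : SimpleGraph V} (hd : Dec G T F)
    (C : F.ConnectedComponent) (hC : ∃ u v, F.Adj u v ∧ F.connectedComponentMk u = C) :
    ∃ S, Priv T F C S := by
  classical
  obtain ⟨u, v, huv, hu⟩ := hC
  have hv : F.connectedComponentMk v = C := (comp_eq huv).symm.trans hu
  by_cases h4 : 4 ≤ C.supp.toFinset.card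
  · exact ⟨C.supp.toFinset, Or.inl ⟨by simp, h4⟩⟩
  push Not at h4
  -- a vertex with two neighbours gives a cherry
  have key : ∀ b s t, F.connectedComponentMk b = C → F.Adj b s → F.Adj b t → s ≠ t →
      ∃ S, Priv T F C S := by
    intro b s t hb hs ht hst
    have hsC : F.connectedComponentMk s = C := (comp_eq hs).symm.trans hb
    have htC : F.connectedComponentMk t = C := (comp_eq ht).symm.trans hb
    have hmem : ∀ x, F.connectedComponentMk x = C → x = b ∨ x = s ∨ x = t := by
      intro x hx
      by_contra hcon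
      push Not at hcon
      have h3 : ({x, b, s, t} : Finset V).card = 4 := by
        rw [Finset.card_insert_of_notMem, Finset.card_insert_of_notMem,
          Finset.card_insert_of_notMem, Finset.card_singleton]
        · simp [hst]
        · simp only [Finset.mem_insert, Finset.mem_singleton, not_or]
          exact ⟨hs.ne, ht.ne⟩
        · simp only [Finset.mem_insert, Finset.mem_singleton, not_or]
          exact hcon
      have h4' : ({x, b, s, t} : Finset V) ⊆ C.supp.toFinset := by
        intro z hz
        simp only [Finset.mem_insert, Finset.mem_singleton] at hz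
        rw [Set.mem_toFinset, ConnectedComponent.mem_supp_iff]
        rcases hz with rfl | rfl | rfl | rfl <;> assumption
      have := Finset.card_le_card h4'
      omega
    have hnst : ¬ F.Adj s t := by
      intro h
      have := hd.hF.cliqueFree (n := 3) (le_refl _)
      exact this {b, s, t} (is3Clique_triple_iff.2 ⟨hs, ht, h⟩)
    have hcherry : Cherry F s b t := by
      refine ⟨hst, hs, ht, ?_, ?_, ?_⟩
      · intro w hw
        rcases hmem w ((comp_eq hw).symm.trans hsC) with h | h | h
        · exact h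
        · exact absurd h.symm hw.ne
        · exact absurd (h ▸ hw) hnst
      · intro w hw
        rcases hmem w ((comp_eq hw).symm.trans hb) with h | h | h
        · exact absurd h.symm hw.ne
        · left; exact h
        · right; exact h
      · intro w hw
        rcases hmem w ((comp_eq hw).symm.trans htC) with h | h | h
        · exact h
        · exact absurd (h ▸ hw).symm hnst
        · exact absurd h.symm hw.ne
    obtain ⟨p, hp, _⟩ := hd.hT.existsUnique_path b s
    have hp' : p.IsPath := hp
    have hn : ¬ p.Nil := fun h => hs.ne h.eq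
    exact ⟨{s, b, t, p.snd}, Or.inr (Or.inr ⟨s, b, t, p.snd, p, hcherry, hb, hp',
      p.mk_start_snd_mem_edges hn, rfl⟩)⟩
  by_cases h1 : ∀ w, F.Adj u w → w = v
  · by_cases h2 : ∀ w, F.Adj v w → w = u
    · obtain ⟨p, hp, _⟩ := hd.hT.existsUnique_path u v
      have hp' : p.IsPath := hp
      exact ⟨p.support.toFinset, Or.inr (Or.inl ⟨u, v, p, ⟨huv, h1, h2⟩, hu, hp', by simp⟩)⟩
    · push Not at h2
      obtain ⟨w, hw, hne⟩ := h2
      exact key v u w hv huv.symm hw hne.symm
  · push Not at h1
    obtain ⟨w, hw, hne⟩ := h1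
    exact key u v w hu huv hw hne.symm

omit [Fintype V] [DecidableEq V] in
lemma path_len {G T F : SimpleGraph V} (hd : Dec G T F) (hG : G.CliqueFree 3) {u v : V}
    (huv : F.Adj u v) (p : T.Walk u v) : 3 ≤ p.length := by
  classical
  by_contra hcon
  push Not at hcon
  cases p with
  | nil => exact huv.ne rfl
  | cons h1 p =>
    cases p with
    | nil => exact hd.hd _ _ h1 huv
    | cons h2 p =>
      cases p with
      | nil =>
        rename_i x
        refine hG {u, x, v} (is3Clique_triple_iff.2 ⟨?_, ?_, ?_⟩)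
        · rw [hd.hG]; left; exact h1
        · rw [hd.hG]; right; exact huv
        · rw [hd.hG]; left; exact h2
      | cons h3 p => simp at hcon; omega

lemma Priv.card {G T F : SimpleGraph V} (hg : Good G T F) (hG : G.CliqueFree 3)
    {C : F.ConnectedComponent} {S : Finset V} (h : Priv T F C S) : 4 ≤ S.card := by
  classical
  rcases h with h | ⟨u, v, p, he, _, hp, hS⟩ | ⟨a, b, c, w, p, hc, _, hp, hw, rfl⟩
  · exact h.2
  · have h1 : S = p.support.toFinset := by
      ext x; rw [hS]; simp
    rw [h1, List.toFinset_card_of_nodup hp.support_nodup, p.length_support]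
    have := path_len hg.dec hG he.1 p
    omega
  · have hwF := claim3 hg hc p hp hw
    have hwa : a ≠ w := fun h => hwF (h ▸ ms hc.2.1.symm)
    have hwb : b ≠ w := fun h => hwF (h ▸ ms hc.2.1)
    have hwc : c ≠ w := fun h => hwF (h ▸ ms hc.2.2.1.symm)
    rw [Finset.card_insert_of_notMem, Finset.card_insert_of_notMem,
      Finset.card_insert_of_notMem, Finset.card_singleton]
    · simpa using hwc
    · simp only [Finset.mem_insert, Finset.mem_singleton, not_or]
      exact ⟨hc.2.2.1.ne, hwb⟩
    · simp only [Finset.mem_insert, Finset.mem_singleton, not_or]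
      exact ⟨hc.2.1.ne.symm, hc.1, hwa⟩

/-- vertices of a nontrivial component are touched by `F` -/
lemma mem_support_of_comp {F : SimpleGraph V} {C : F.ConnectedComponent}
    (hC : ∃ u v, F.Adj u v ∧ F.connectedComponentMk u = C) {x : V}
    (hx : F.connectedComponentMk x = C) : x ∈ F.support := by
  obtain ⟨u, v, huv, hu⟩ := hC
  by_cases h : x = u
  · rw [h]; exact ms huv
  · have hr : F.Reachable x u := ConnectedComponent.exact (hx.trans hu.symm)
    by_contra hns
    refine not_reachable_of_closed {x} ?_ rfl (fun h' => h ?_) hr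
    · intro a ha b hab
      rw [Set.mem_singleton_iff] at ha
      rw [ha] at hab
      exact absurd (ms hab) hns
    · rw [Set.mem_singleton_iff] at h'
      exact h'.symm

lemma cherry_comp {F : SimpleGraph V} {D : F.ConnectedComponent} {a b c : V}
    (hc : Cherry F a b c) (hbD : F.connectedComponentMk b = D) {y : V}
    (hy : y = a ∨ y = b ∨ y = c) : F.connectedComponentMk y = D ∧ y ∈ F.support := by
  rcases hy with rfl | rfl | rfl
  · exact ⟨(comp_eq hc.2.1).symm.trans hbD, ms hc.2.1.symm⟩
  · exact ⟨hbD, ms hc.2.1⟩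
  · exact ⟨(comp_eq hc.2.2.1).symm.trans hbD, ms hc.2.2.1.symm⟩

lemma iso_comp {F : SimpleGraph V} {D : F.ConnectedComponent} {u v : V}
    (he : IsoEdge F u v) (hu : F.connectedComponentMk u = D) {y : V}
    (hy : y = u ∨ y = v) : F.connectedComponentMk y = D := by
  rcases hy with rfl | rfl
  · exact hu
  · exact (comp_eq he.1).symm.trans hu

section Disj
variable {G T F : SimpleGraph V} {C C' : F.ConnectedComponent} {S S' : Finset V} {x : V}

lemma disjAA (hne : C ≠ C') (h : PA C S) (h' : PA C' S') (hx : x ∈ S) (hx' : x ∈ S') : False := by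
  have h1 : F.connectedComponentMk x = C := (h.1 x).1 hx
  have h2 : F.connectedComponentMk x = C' := (h'.1 x).1 hx'
  exact hne (h1.symm.trans h2)

lemma disjAB (hg : Good G T F) (hne : C ≠ C')
    (hC : ∃ u v, F.Adj u v ∧ F.connectedComponentMk u = C)
    (h : PA C S) (h' : PB T F C' S') (hx : x ∈ S) (hx' : x ∈ S') : False := by
  have hxC : F.connectedComponentMk x = C := (h.1 x).1 hx
  have hxF := mem_support_of_comp hC hxC
  obtain ⟨u', v', p', he', hu', hp', hS'⟩ := h'
  have := claim1 hg he' p' hp' ((hS' x).1 hx') hxF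
  exact hne (hxC.symm.trans (iso_comp he' hu' this))

lemma disjAC (hg : Good G T F) (hne : C ≠ C')
    (hC : ∃ u v, F.Adj u v ∧ F.connectedComponentMk u = C)
    (h : PA C S) (h' : PC T F C' S') (hx : x ∈ S) (hx' : x ∈ S') : False := by
  have hxC : F.connectedComponentMk x = C := (h.1 x).1 hx
  have hxF := mem_support_of_comp hC hxC
  obtain ⟨a', b', c', w', p', hc', hbC', hp', hw', hS'⟩ := h'
  rw [hS'] at hx'
  simp only [Finset.mem_insert, Finset.mem_singleton] at hx'
  have hx3 : (x = a' ∨ x = b' ∨ x = c') ∨ x = w' := by tauto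
  rcases hx3 with h1 | h1
  · exact hne (hxC.symm.trans (cherry_comp hc' hbC' h1).1)
  · exact claim3 hg hc' p' hp' hw' (h1 ▸ hxF)

lemma disjBB (hg : Good G T F) (hne : C ≠ C')
    (h : PB T F C S) (h' : PB T F C' S') (hx : x ∈ S) (hx' : x ∈ S') : False := by
  obtain ⟨u, v, p, he, hu, hp, hS⟩ := h
  obtain ⟨u', v', p', he', hu', hp', hS'⟩ := h'
  refine claim2 hg he he' ?_ p hp p' hp' ((hS x).1 hx) ((hS' x).1 hx')
  intro heq
  rw [Sym2.eq_iff] at heq
  rcases heq with h1 | h1
  · exact hne (hu.symm.trans (iso_comp he' hu' (Or.inl h1.1)))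
  · exact hne (hu.symm.trans (iso_comp he' hu' (Or.inr h1.1)))

lemma disjBC (hg : Good G T F) (hne : C ≠ C')
    (h : PB T F C S) (h' : PC T F C' S') (hx : x ∈ S) (hx' : x ∈ S') : False := by
  obtain ⟨u, v, p, he, hu, hp, hS⟩ := h
  obtain ⟨a', b', c', w', p', hc', hbC', hp', hw', hS'⟩ := h'
  rw [hS'] at hx'
  simp only [Finset.mem_insert, Finset.mem_singleton] at hx'
  have hxp := (hS x).1 hx
  have hx3 : (x = a' ∨ x = b' ∨ x = c') ∨ x = w' := by tauto
  rcases hx3 with h1 | h1
  · obtain ⟨h2, h3⟩ := cherry_comp hc' hbC' h1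
    have h4 := claim1 hg he p hp hxp h3
    exact hne ((iso_comp he hu h4).symm.trans h2)
  · exact claim4 hg he hc' p hp p' hp' hw' (h1 ▸ hxp)

lemma disjCC (hb : Best G T F) (hne : C ≠ C')
    (h : PC T F C S) (h' : PC T F C' S') (hx : x ∈ S) (hx' : x ∈ S') : False := by
  have hg := hb.good
  obtain ⟨a, b, c, w, p, hc, hbC, hp, hw, hS⟩ := h
  obtain ⟨a', b', c', w', p', hc', hbC', hp', hw', hS'⟩ := h'
  rw [hS] at hx
  rw [hS'] at hx'
  simp only [Finset.mem_insert, Finset.mem_singleton] at hx hx'
  have hwF := claim3 hg hc p hp hw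
  have hwF' := claim3 hg hc' p' hp' hw'
  have hx3 : (x = a ∨ x = b ∨ x = c) ∨ x = w := by tauto
  have hx3' : (x = a' ∨ x = b' ∨ x = c') ∨ x = w' := by tauto
  rcases hx3 with h1 | h1
  · obtain ⟨h2, h3⟩ := cherry_comp hc hbC h1
    rcases hx3' with h1' | h1'
    · obtain ⟨h2', h3'⟩ := cherry_comp hc' hbC' h1'
      exact hne (h2.symm.trans h2')
    · exact hwF' (h1' ▸ h3)
  · rcases hx3' with h1' | h1'
    · obtain ⟨h2', h3'⟩ := cherry_comp hc' hbC' h1'
      exact hwF (h1 ▸ h3')
    · have hbb : b ≠ b' := by
        rintro rfl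
        exact hne (hbC.symm.trans hbC')
      subst h1
      subst h1'
      exact claim5 hb hc hc' hbb p hp p' hp' hw hw'

lemma Priv.disj (hb : Best G T F) (hne : C ≠ C')
    (hC : ∃ u v, F.Adj u v ∧ F.connectedComponentMk u = C)
    (hC' : ∃ u v, F.Adj u v ∧ F.connectedComponentMk u = C')
    (h : Priv T F C S) (h' : Priv T F C' S') : Disjoint S S' := by
  rw [Finset.disjoint_left]
  intro x hx hx'
  have hg := hb.good
  rcases h with h | h | h <;> rcases h' with h' | h' | h'
  · exact disjAA hne h h' hx hx'
  · exact disjAB hg hne hC h h' hx hx'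
  · exact disjAC hg hne hC h h' hx hx'
  · exact disjAB hg hne.symm hC' h' h hx' hx
  · exact disjBB hg hne h h' hx hx'
  · exact disjBC hg hne h h' hx hx'
  · exact disjAC hg hne.symm hC' h' h hx' hx
  · exact disjBC hg hne.symm h' h hx' hx
  · exact disjCC hb hne h h' hx hx'

end Disj

/-- the number of nontrivial components of the forest is at most n/4 -/
theorem four_mul_comps_le {G T F : SimpleGraph V} (hb : Best G T F) (hG : G.CliqueFree 3) :
    4 * Nat.card {C : F.ConnectedComponent // ∃ u v, F.Adj u v ∧ F.connectedComponentMk u = C}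
      ≤ Fintype.card V := by
  classical
  have : Finite F.ConnectedComponent := inferInstance
  have : Fintype {C : F.ConnectedComponent // ∃ u v, F.Adj u v ∧ F.connectedComponentMk u = C} :=
    Fintype.ofFinite _
  have hex : ∀ C : {C : F.ConnectedComponent // ∃ u v, F.Adj u v ∧ F.connectedComponentMk u = C},
      ∃ S, Priv T F C.1 S := fun C => exists_priv hb.good.dec C.1 C.2
  choose S hS using hex
  have h1 : (Finset.univ.biUnion S).card = ∑ C, (S C).card := by
    apply Finset.card_biUnion
    intro C _ C' _ hne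
    exact Priv.disj hb (fun h => hne (Subtype.ext h)) C.2 C'.2 (hS C) (hS C')
  have h2 : ∑ C : {C : F.ConnectedComponent // ∃ u v, F.Adj u v ∧ F.connectedComponentMk u = C}, 4
      ≤ ∑ C, (S C).card := Finset.sum_le_sum fun C _ => (hS C).card hb.good hG
  rw [Finset.sum_const, Finset.card_univ, smul_eq_mul] at h2
  rw [Nat.card_eq_fintype_card, mul_comm]
  calc _ ≤ ∑ C, (S C).card := h2
    _ = (Finset.univ.biUnion S).card := h1.symm
    _ ≤ Fintype.card V := Finset.card_le_univ _

end Pool.Agent.Helper65.TT
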