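import Mathlib
import Pool.Agent.Helper65.TT.Defs

set_option autoImplicit false

namespace Pool.Agent.Helper65.TT

open SimpleGraph

variable {V : Type*}

/-- a subgraph containing a 4-cycle is not a tree -/
lemma not_tree_of_cycle {G : SimpleGraph V} {H : G.Subgraph} (hH : H.coe.IsTree) {a b c d : V}
    (hac : a ≠ c) (hbd : b ≠ d) (h1 : H.Adj a b) (h2 : H.Adj b c) (h3 : H.Adj c d)
    (h4 : H.Adj d a) : False := by
  let a' : H.verts := ⟨a, H.edge_vert h1⟩
  let b' : H.verts := ⟨b, H.edge_vert h2⟩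
  let c' : H.verts := ⟨c, H.edge_vert h3⟩
  let d' : H.verts := ⟨d, H.edge_vert h4⟩
  have e1 : H.coe.Adj a' b' := h1
  have e2 : H.coe.Adj b' c' := h2
  have e3 : H.coe.Adj a' d' := h4.symm
  have e4 : H.coe.Adj d' c' := h3.symm
  have hac' : a' ≠ c' := fun h => hac (congrArg Subtype.val h)
  have hbd' : b' ≠ d' := fun h => hbd (congrArg Subtype.val h)
  have p1 : (Walk.cons e1 (Walk.cons e2 Walk.nil)).IsPath := by
    simp [Walk.cons_isPath_iff, e1.ne, e2.ne, hac']
  have p2 : (Walk.cons e3 (Walk.cons e4 Walk.nil)).IsPath := by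
    simp [Walk.cons_isPath_iff, e3.ne, e4.ne, hac']
  have := hH.isAcyclic.path_unique ⟨_, p1⟩ ⟨_, p2⟩
  have h5 := congrArg (fun p : H.coe.Path a' c' => p.1.support) this
  simp only [Walk.support_cons, Walk.support_nil, List.cons.injEq, and_true, true_and] at h5
  exact hbd' h5

section

variable [Fintype V] {G : SimpleGraph V} {t : ℕ} {H : Fin t → G.Subgraph}

open Classical in
/-- the trees which contain `v` -/
noncomputable def at_ (H : Fin t → G.Subgraph) (v : V) : Finset (Fin t) :=
  Finset.univ.filter fun i => v ∈ (H i).verts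

lemma mem_at {v : V} {i : Fin t} : i ∈ at_ H v ↔ v ∈ (H i).verts := by
  simp [at_]

lemma exists_adj (hH : IsTreeDecomposition G H) {a b : V} (hab : G.Adj a b) :
    ∃ i, (H i).Adj a b := by
  have h : (⨆ i, H i).Adj a b := by rw [hH.2.2]; exact hab
  rw [Subgraph.iSup_adj] at h
  exact h

lemma one_le_at (hH : IsTreeDecomposition G H) (v : V) : 1 ≤ (at_ H v).card := by
  have h : v ∈ (⨆ i, H i).verts := by rw [hH.2.2]; trivial
  rw [Subgraph.verts_iSup, Set.mem_iUnion] at h
  obtain ⟨i, hi⟩ := h
  exact Finset.card_pos.2 ⟨i, mem_at.2 hi⟩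

lemma three_ones (hH : IsTreeDecomposition G H) {a b c d : V} (hac : a ≠ c) (hbd : b ≠ d)
    (h1 : G.Adj a b) (h2 : G.Adj b c) (h3 : G.Adj c d) (h4 : G.Adj d a)
    (ha : (at_ H a).card ≤ 1) (hb : (at_ H b).card ≤ 1) (hc : (at_ H c).card ≤ 1) : False := by
  obtain ⟨i1, k1⟩ := exists_adj hH h1
  obtain ⟨i2, k2⟩ := exists_adj hH h2
  obtain ⟨i3, k3⟩ := exists_adj hH h3
  obtain ⟨i4, k4⟩ := exists_adj hH h4
  have e1 : i1 = i2 := Finset.card_le_one.1 hb _ (mem_at.2 ((H i1).edge_vert k1.symm)) _
    (mem_at.2 ((H i2).edge_vert k2))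
  have e2 : i2 = i3 := Finset.card_le_one.1 hc _ (mem_at.2 ((H i2).edge_vert k2.symm)) _
    (mem_at.2 ((H i3).edge_vert k3))
  have e3 : i4 = i1 := Finset.card_le_one.1 ha _ (mem_at.2 ((H i4).edge_vert k4.symm)) _
    (mem_at.2 ((H i1).edge_vert k1))
  subst e1 e2 e3
  exact not_tree_of_cycle (hH.1 i4) hac hbd k1 k2 k3 k4

lemma six_le (hH : IsTreeDecomposition G H) {a b c d : V} (hac : a ≠ c) (hbd : b ≠ d)
    (h1 : G.Adj a b) (h2 : G.Adj b c) (h3 : G.Adj c d) (h4 : G.Adj d a) :
    6 ≤ (at_ H a).card + (at_ H b).card + (at_ H c).card + (at_ H d).card := by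
  have ha := one_le_at hH a
  have hb := one_le_at hH b
  have hc := one_le_at hH c
  have hd := one_le_at hH d
  by_contra hlt
  push Not at hlt
  have k1 := three_ones hH hac hbd h1 h2 h3 h4
  have k2 := three_ones hH hbd hac.symm h2 h3 h4 h1
  have k3 := three_ones hH hac.symm hbd.symm h3 h4 h1 h2
  have k4 := three_ones hH hbd.symm hac h4 h1 h2 h3
  by_cases q1 : (at_ H a).card ≤ 1
  · by_cases q2 : (at_ H b).card ≤ 1
    · by_cases q3 : (at_ H c).card ≤ 1
      · exact k1 q1 q2 q3
      · exact k4 (by omega) q1 q2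
    · exact k3 (by omega) (by omega) q1
  · exact k2 (by omega) (by omega) (by omega)

/-- the number of trees -/
lemma sum_at (hH : IsTreeDecomposition G H) :
    ∑ v, (at_ H v).card ≤ G.edgeSet.ncard + t := by
  classical
  have h1 : ∑ v, (at_ H v).card = ∑ i, (H i).verts.ncard := by
    have : ∀ v, (at_ H v).card = ∑ i, if v ∈ (H i).verts then 1 else 0 := by
      intro v
      rw [at_, Finset.card_filter]
    simp only [this]
    rw [Finset.sum_comm]
    apply Finset.sum_congr rfl
    intro i _
    rw [← Finset.card_filter, Set.ncard_eq_toFinset_card']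
    congr 1
    ext v
    simp
  have h2 : ∀ i, (H i).verts.ncard = (H i).edgeSet.ncard + 1 := by
    intro i
    have h3 := (hH.1 i).card_edgeFinset
    rw [← Nat.card_eq_fintype_card, Nat.card_coe_set_eq] at h3
    rw [← h3]
    congr 1
    rw [← Set.ncard_coe_finset, coe_edgeFinset, ← Nat.card_coe_set_eq, ← Nat.card_coe_set_eq]
    have hinj : Function.Injective (fun e : (H i).coe.edgeSet =>
        (⟨e.1.map Subtype.val, by
          obtain ⟨e, he⟩ := e
          induction e using Sym2.ind with
          | _ a b => exact he⟩ : (H i).edgeSet)) := by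
      intro e e' h
      apply Subtype.ext
      exact Sym2.map.injective Subtype.val_injective (congrArg Subtype.val h)
    have hsurj : Function.Surjective (fun e : (H i).coe.edgeSet =>
        (⟨e.1.map Subtype.val, by
          obtain ⟨e, he⟩ := e
          induction e using Sym2.ind with
          | _ a b => exact he⟩ : (H i).edgeSet)) := by
      rintro ⟨e, he⟩
      induction e using Sym2.ind with
      | _ a b =>
        have hab : (H i).Adj a b := he
        exact ⟨⟨s(⟨a, (H i).edge_vert hab⟩, ⟨b, (H i).edge_vert hab.symm⟩), hab⟩, rfl⟩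
    exact Nat.card_congr (Equiv.ofBijective _ ⟨hinj, hsurj⟩)
  have h4 : ∑ i, (H i).edgeSet.ncard ≤ G.edgeSet.ncard := by
    have h5 : ∑ i, (H i).edgeSet.ncard = (⋃ i, (H i).edgeSet).ncard := by
      have h6 : (⋃ i, (H i).edgeSet)
          = ↑(Finset.univ.biUnion fun i => (Set.toFinite (H i).edgeSet).toFinset) := by
        ext e; simp
      rw [h6, Set.ncard_coe_finset, Finset.card_biUnion]
      · apply Finset.sum_congr rfl
        intro i _
        rw [Set.ncard_eq_toFinset_card _ (Set.toFinite _)]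
      · intro i _ j _ hij
        show Disjoint (Set.toFinite (H i).edgeSet).toFinset (Set.toFinite (H j).edgeSet).toFinset
        rw [Set.Finite.disjoint_toFinset]
        exact hH.2.1 i j hij
    rw [h5]
    apply Set.ncard_le_ncard _ (Set.toFinite _)
    intro e he
    rw [Set.mem_iUnion] at he
    obtain ⟨i, hi⟩ := he
    exact (H i).edgeSet_subset hi
  rw [h1, Finset.sum_congr rfl fun i _ => h2 i, Finset.sum_add_distrib, Finset.sum_const,
    Finset.card_univ, Fintype.card_fin, smul_eq_mul, mul_one]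
  omega

end

end Pool.Agent.Helper65.TT
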