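import Mathlib
import Pool.Agent.Helper65.TT.Defs
import Pool.Agent.Helper65.TT.Low
import Pool.Agent.Helper65.TT.Sparse

set_option autoImplicit false

namespace Pool.Agent.Helper65.TT.Ex

open SimpleGraph Pool.Agent.Helper65.TT

/-- the (ordered) adjacency relation of the example -/
def R (i j : ℕ) : Prop :=
  (j = i + 1 ∧ j % 4 ≠ 0) ∨ (j = i + 3 ∧ i % 4 = 0) ∨ (j = i + 2 ∧ i % 4 = 2)

/-- `n / 4` disjoint 4-cycles joined in a row by edges -/
def A (n : ℕ) : SimpleGraph (Fin n) where
  Adj a b := R a.1 b.1 ∨ R b.1 a.1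
  symm := ⟨fun a b h => h.symm⟩
  loopless := ⟨fun a h => by unfold R at h; omega⟩

lemma adj_iff {n : ℕ} (a b : Fin n) : (A n).Adj a b ↔ R a.1 b.1 ∨ R b.1 a.1 := Iff.rfl

lemma cliqueFree (n : ℕ) : (A n).CliqueFree 3 := by
  intro s hs
  rw [is3Clique_iff] at hs
  obtain ⟨a, b, c, h1, h2, h3, -⟩ := hs
  rw [adj_iff] at h1 h2 h3
  unfold R at h1 h2 h3
  omega

lemma connected {n : ℕ} (hn : 1 ≤ n) : (A n).Connected := by
  have : NeZero n := ⟨by omega⟩
  have h0 : ∀ m (hm : m < n), (A n).Reachable ⟨m, hm⟩ ⟨0, by omega⟩ := by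
    intro m
    induction m using Nat.strong_induction_on with
    | _ m ih =>
      intro hm
      rcases Nat.eq_zero_or_pos m with h | h
      · subst h; exact Reachable.refl _
      · by_cases h4 : m % 4 = 0
        · have hadj : (A n).Adj ⟨m, hm⟩ ⟨m - 2, by omega⟩ := by
            rw [adj_iff]; right; unfold R; dsimp only; omega
          exact hadj.reachable.trans (ih (m - 2) (by omega) (by omega))
        · have hadj : (A n).Adj ⟨m, hm⟩ ⟨m - 1, by omega⟩ := by
            rw [adj_iff]; right; unfold R; dsimp only; omega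
          exact hadj.reachable.trans (ih (m - 1) (by omega) (by omega))
  have : Nonempty (Fin n) := ⟨0, hn⟩
  refine ⟨fun a b => ?_⟩
  exact (h0 a.1 a.2).trans (h0 b.1 b.2).symm

lemma edge_count {n : ℕ} (hn : 1 ≤ n) : (A n).edgeSet.ncard + 1 ≤ n + n / 4 := by
  classical
  let D := {d : (A n).Dart // d.fst.1 < d.snd.1}
  have hD : (A n).edgeSet.ncard ≤ Nat.card D := by
    rw [← Nat.card_coe_set_eq]
    apply Nat.card_le_card_of_surjective
      (fun d : D => (⟨d.1.edge, d.1.edge_mem⟩ : (A n).edgeSet))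
    rintro ⟨e, he⟩
    induction e using Sym2.ind with
    | _ a b =>
      have hab : (A n).Adj a b := he
      rcases lt_trichotomy a.1 b.1 with h | h | h
      · exact ⟨⟨⟨(a, b), hab⟩, h⟩, rfl⟩
      · exact absurd (Fin.ext h) hab.ne
      · exact ⟨⟨⟨(b, a), hab.symm⟩, h⟩, Subtype.ext Sym2.eq_swap⟩
  have h2 : Nat.card D ≤ Nat.card (Fin (n - 1 + n / 4)) := by
    apply Nat.card_le_card_of_injective
      (fun d : D => (⟨if d.1.snd.1 = d.1.fst.1 + 3 then n - 1 + d.1.fst.1 / 4 else d.1.snd.1 - 1,
        by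
          obtain ⟨⟨⟨a, b⟩, hab⟩, hlt⟩ := d
          have ha := a.2
          have hb := b.2
          rw [adj_iff] at hab
          unfold R at hab
          dsimp only at *
          split_ifs <;> omega⟩ : Fin (n - 1 + n / 4)))
    rintro ⟨⟨⟨a, b⟩, hab⟩, hlt⟩ ⟨⟨⟨a', b'⟩, hab'⟩, hlt'⟩ h
    have ha := a.2
    have hb := b.2
    have ha' := a'.2
    have hb' := b'.2
    have hab2 : R a.1 b.1 ∨ R b.1 a.1 := hab
    have hab2' : R a'.1 b'.1 ∨ R b'.1 a'.1 := hab'
    unfold R at hab2 hab2'
    have h' : (if b.1 = a.1 + 3 then n - 1 + a.1 / 4 else b.1 - 1) =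
        (if b'.1 = a'.1 + 3 then n - 1 + a'.1 / 4 else b'.1 - 1) := congrArg Fin.val h
    have hlt1 : a.1 < b.1 := hlt
    have hlt2 : a'.1 < b'.1 := hlt'
    have : a = a' ∧ b = b' := by
      rw [Fin.ext_iff, Fin.ext_iff]
      clear h hlt hlt' hab hab'
      split_ifs at h' <;> omega
    obtain ⟨rfl, rfl⟩ := this
    rfl
  rw [Nat.card_fin] at h2
  omega

/-- lower bound -/
theorem lower {n t : ℕ} (hn : 1 ≤ n) {H : Fin t → (A n).Subgraph}
    (hH : IsTreeDecomposition (A n) H) : n / 4 + 1 ≤ t := by
  have h1 := sum_at hH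
  have h2 := edge_count hn
  have h3 : n + 2 * (n / 4) ≤ ∑ v, (at_ H v).card := by
    -- extend by zero to a function on the natural numbers
    let g : ℕ → ℕ := fun m => if h : m < n then (at_ H ⟨m, h⟩).card else 0
    have hg : ∑ v, (at_ H v).card = ∑ m ∈ Finset.range n, g m := by
      rw [← Fin.sum_univ_eq_sum_range]
      apply Finset.sum_congr rfl
      intro v _
      show _ = if h : v.1 < n then (at_ H ⟨v.1, h⟩).card else 0
      rw [dif_pos v.2]
    have hone : ∀ m, m < n → 1 ≤ g m := by
      intro m hm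
      show 1 ≤ if h : m < n then (at_ H ⟨m, h⟩).card else 0
      rw [dif_pos hm]
      exact one_le_at hH _
    have hblock : ∀ k, 4 * k ≤ n → 6 * k ≤ ∑ m ∈ Finset.range (4 * k), g m := by
      intro k
      induction k with
      | zero => intro _; simp
      | succ k ih =>
        intro hk
        have ih' := ih (by omega)
        have h6 : 6 ≤ g (4 * k) + g (4 * k + 1) + g (4 * k + 2) + g (4 * k + 3) := by
          have e : ∀ m (hm : m < n), g m = (at_ H ⟨m, hm⟩).card := by
            intro m hm
            show (if h : m < n then (at_ H ⟨m, h⟩).card else 0) = _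
            rw [dif_pos hm]
          rw [e (4 * k) (by omega), e (4 * k + 1) (by omega), e (4 * k + 2) (by omega),
            e (4 * k + 3) (by omega)]
          apply six_le hH
          · rw [Ne, Fin.ext_iff]; dsimp only; omega
          · rw [Ne, Fin.ext_iff]; dsimp only; omega
          · rw [adj_iff]; unfold R; dsimp only; omega
          · rw [adj_iff]; unfold R; dsimp only; omega
          · rw [adj_iff]; unfold R; dsimp only; omega
          · rw [adj_iff]; unfold R; dsimp only; omega
        rw [show 4 * (k + 1) = 4 * k + 1 + 1 + 1 + 1 by ring, Finset.sum_range_succ,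
          Finset.sum_range_succ, Finset.sum_range_succ, Finset.sum_range_succ]
        have e2 : 4 * k + 1 + 1 = 4 * k + 2 := rfl
        have e3 : 4 * k + 1 + 1 + 1 = 4 * k + 3 := rfl
        rw [e2, e3]
        omega
    have hrest : ∀ j, 4 * (n / 4) + j ≤ n →
        6 * (n / 4) + j ≤ ∑ m ∈ Finset.range (4 * (n / 4) + j), g m := by
      intro j
      induction j with
      | zero => intro _; exact hblock _ (by omega)
      | succ j ih =>
        intro hj
        have := ih (by omega)
        have h1 := hone (4 * (n / 4) + j) (by omega)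
        show _ ≤ ∑ m ∈ Finset.range (4 * (n / 4) + j + 1), g m
        rw [Finset.sum_range_succ]
        omega
    have h4 := hrest (n % 4) (by omega)
    rw [show 4 * (n / 4) + n % 4 = n by omega] at h4
    rw [hg]
    omega
  omega

end Pool.Agent.Helper65.TT.Ex
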