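import Mathlib
import Pool.Agent.Helper65.TT.Ex

set_option autoImplicit false

namespace Pool.Agent.Helper65.TT.Ex

open SimpleGraph Pool.Agent.Helper65.TT

/-- the neighbour of `v` that follows `w` in the rotation at `v` -/
def nx (n v w : ℕ) : ℕ :=
  if v % 4 = 1 then (if w < v ∧ v + 1 < n then v + 1 else v - 1)
  else if v % 4 = 3 then (if w + 1 = v then v - 3 else v - 1)
  else if v % 4 = 0 then
    (if w < v then (if v + 1 < n then v + 1 else v - 2)
     else if w = v + 1 ∧ v + 3 < n then v + 3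
     else if 4 ≤ v then v - 2 else v + 1)
  else
    (if w < v then (if v + 1 < n then v + 1 else v - 1)
     else if w = v + 1 ∧ v + 2 < n then v + 2 else v - 1)

/-- the label of the face of the dart from `v` to `w` -/
def lab (n v w : ℕ) : ℕ :=
  if v / 4 = w / 4 then
    (if 4 * (v / 4) + 3 < n ∧ ¬ (w = v + 1 ∨ v = w + 3) then v / 4 + 1 else v / 4)
  else if v / 4 < w / 4 then w / 4 else v / 4

lemma nx_adj {n v w : ℕ} (hv : v < n) (hw : w < n) (h : R v w ∨ R w v) :
    nx n v w < n ∧ (R v (nx n v w) ∨ R (nx n v w) v) := by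
  unfold R at *
  unfold nx
  split_ifs <;> omega

lemma nx_inj {n v w w' : ℕ} (hv : v < n) (hw : w < n) (h : R v w ∨ R w v) (hw' : w' < n)
    (h' : R v w' ∨ R w' v) (he : nx n v w = nx n v w') : w = w' := by
  unfold R at *
  unfold nx at he
  split_ifs at he <;> omega

lemma nx_cyc {n v w w' : ℕ} (hv : v < n) (hw : w < n) (h : R v w ∨ R w v) (hw' : w' < n)
    (h' : R v w' ∨ R w' v) : w' = w ∨ w' = nx n v w ∨ w' = nx n v (nx n v w) := by
  unfold R at *
  unfold nx
  split_ifs <;> omega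

lemma lab_nx {n v w : ℕ} (hv : v < n) (hw : w < n) (h : R v w ∨ R w v) :
    lab n w (nx n w v) = lab n v w := by
  unfold R at h
  unfold lab nx
  split_ifs <;> omega

/-- the rotation as a map on darts -/
def rot (n : ℕ) (d : (A n).Dart) : (A n).Dart :=
  ⟨(d.fst, ⟨nx n d.fst.1 d.snd.1, (nx_adj d.fst.2 d.snd.2 d.adj).1⟩),
    (nx_adj d.fst.2 d.snd.2 d.adj).2⟩

lemma rot_fst (n : ℕ) (d : (A n).Dart) : (rot n d).fst = d.fst := rfl

lemma rot_snd (n : ℕ) (d : (A n).Dart) : (rot n d).snd.1 = nx n d.fst.1 d.snd.1 := rfl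

lemma dart_ext {n : ℕ} {d d' : (A n).Dart} (h : d.fst = d'.fst) (h' : d.snd.1 = d'.snd.1) :
    d = d' := by
  apply Dart.ext
  exact Prod.ext h (Fin.ext h')

instance (n : ℕ) : Finite (A n).Dart :=
  Finite.of_injective (fun d : (A n).Dart => d.toProd) Dart.toProd_injective

lemma rot_injective (n : ℕ) : Function.Injective (rot n) := by
  intro d d' h
  have h1' : (rot n d).fst = (rot n d').fst := by rw [h]
  have h1 : d.fst = d'.fst := h1'
  have h2' : (rot n d).snd.1 = (rot n d').snd.1 := by rw [h]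
  have h2 : nx n d.fst.1 d.snd.1 = nx n d'.fst.1 d'.snd.1 := h2'
  apply dart_ext h1
  rw [← h1] at h2
  have h3 : (A n).Adj d.fst d'.snd := by rw [h1]; exact d'.adj
  exact nx_inj d.fst.2 d.snd.2 d.adj d'.snd.2 h3 h2

/-- the rotation system -/
noncomputable def σ (n : ℕ) : Equiv.Perm (A n).Dart :=
  Equiv.ofBijective (rot n) (Finite.injective_iff_bijective.1 (rot_injective n))

lemma σ_apply (n : ℕ) (d : (A n).Dart) : σ n d = rot n d := rfl

lemma isRotation (n : ℕ) : IsRotationSystem (A n) (σ n) := by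
  refine ⟨fun d => rfl, ?_⟩
  intro d d' h
  have h3 : (A n).Adj d.fst d'.snd := by rw [h]; exact d'.adj
  rcases nx_cyc d.fst.2 d.snd.2 d.adj d'.snd.2 h3 with h1 | h1 | h1
  · have : d = d' := dart_ext h h1.symm
    rw [this]
  · refine ⟨1, ?_⟩
    rw [zpow_one, σ_apply]
    exact dart_ext h h1.symm
  · refine ⟨2, ?_⟩
    rw [zpow_ofNat, pow_two, Equiv.Perm.mul_apply, σ_apply, σ_apply]
    exact dart_ext h h1.symm

/-- the label is constant on faces -/
lemma lab_const (n : ℕ) {d d' : (A n).Dart} (h : (facePerm (A n) (σ n)).SameCycle d d') :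
    lab n d'.fst.1 d'.snd.1 = lab n d.fst.1 d.snd.1 := by
  obtain ⟨k, -, hk⟩ := h.exists_pow_eq'
  rw [← hk]
  clear hk h
  induction k with
  | zero => rfl
  | succ k ih =>
    rw [pow_succ', Equiv.Perm.mul_apply]
    rw [← ih]
    set e := (facePerm (A n) (σ n) ^ k) d
    exact lab_nx e.fst.2 e.snd.2 e.adj

lemma exists_label {n : ℕ} (hn : 2 ≤ n) (i : ℕ) (hi : i ≤ n / 4) :
    ∃ d : (A n).Dart, lab n d.fst.1 d.snd.1 = i := by
  by_cases h : 4 * i + 1 < n
  · refine ⟨⟨(⟨4 * i, by omega⟩, ⟨4 * i + 1, h⟩), ?_⟩, ?_⟩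
    · rw [adj_iff]; unfold R; dsimp only; omega
    · show lab n (4 * i) (4 * i + 1) = i
      unfold lab
      split_ifs <;> omega
  · refine ⟨⟨(⟨4 * i - 3, by omega⟩, ⟨4 * i - 4, by omega⟩), ?_⟩, ?_⟩
    · rw [adj_iff]; unfold R; dsimp only; omega
    · show lab n (4 * i - 3) (4 * i - 4) = i
      unfold lab
      split_ifs <;> omega

/-- the example is planar -/
theorem isPlanar {n : ℕ} (hn : 1 ≤ n) : IsPlanar (A n) := by
  classical
  by_cases h1 : n = 1
  · left
    subst h1
    exact Subsingleton.elim _ _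
  right
  have hc := connected hn
  refine ⟨σ n, isRotation n, ?_⟩
  have h2 := Planar.euler_le (A n) (σ n) (isRotation n) hc
  have h3 := edge_count hn
  have h4 : n / 4 + 1 ≤ numFaces (A n) (σ n) := by
    have h5 : ∀ i : Fin (n / 4 + 1), ∃ d : (A n).Dart, lab n d.fst.1 d.snd.1 = i.1 :=
      fun i => exists_label (by omega) i.1 (by omega)
    choose f hf using h5
    have h6 : Function.Injective (fun i => (Quotient.mk _ (f i) : Planar.Face (A n) (σ n))) := by
      intro i j hij
      have h7 := lab_const n (Quotient.exact hij)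
      rw [hf, hf] at h7
      exact (Fin.ext h7).symm
    have h8 := Nat.card_le_card_of_injective _ h6
    rw [Nat.card_fin] at h8
    exact h8
  rw [Nat.card_fin] at h2 ⊢
  omega

end Pool.Agent.Helper65.TT.Ex
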