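import Mathlib
import Pool.Agent.Helper65.TT.Swap

set_option autoImplicit false

namespace Pool.Agent.Helper65.TT.NW

open SimpleGraph

variable {V : Type*} {ι : Type*}

/-- families of edge-disjoint forests in `G` -/
structure Valid (G : SimpleGraph V) (F : ι → SimpleGraph V) : Prop where
  le : ∀ i, F i ≤ G
  acyc : ∀ i, (F i).IsAcyclic
  disj : ∀ i j, i ≠ j → ∀ a b, (F i).Adj a b → ¬ (F j).Adj a b

variable [Fintype ι] [DecidableEq ι]

/-- total number of edges -/
noncomputable def wt (F : ι → SimpleGraph V) : ℕ := ∑ i, (F i).edgeSet.ncard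

structure IsMax (G : SimpleGraph V) (F : ι → SimpleGraph V) : Prop where
  valid : Valid G F
  max : ∀ F' : ι → SimpleGraph V, Valid G F' → wt F' ≤ wt F

/-- one edge replacement -/
def Repl (G : SimpleGraph V) (F F' : ι → SimpleGraph V) : Prop :=
  ∃ i u v x y, G.Adj u v ∧ (∀ j, ¬ (F j).Adj u v) ∧ (F i).Adj x y ∧
    (sw (F i) x y u v).IsAcyclic ∧ F' = Function.update F i (sw (F i) x y u v)

omit [Fintype ι] in
lemma valid_update {G : SimpleGraph V} {F : ι → SimpleGraph V} (hF : Valid G F) (i : ι)
    (H : SimpleGraph V) (hH : H.IsAcyclic) (hle : H ≤ G)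
    (hd : ∀ j, j ≠ i → ∀ a b, H.Adj a b → ¬ (F j).Adj a b) :
    Valid G (Function.update F i H) := by
  refine ⟨?_, ?_, ?_⟩
  · intro j
    by_cases h : j = i
    · subst h; rw [Function.update_self]; exact hle
    · rw [Function.update_of_ne h]; exact hF.le j
  · intro j
    by_cases h : j = i
    · subst h; rw [Function.update_self]; exact hH
    · rw [Function.update_of_ne h]; exact hF.acyc j
  · intro j k hjk a b
    by_cases h : j = i
    · subst h
      rw [Function.update_self, Function.update_of_ne hjk.symm]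
      exact hd k hjk.symm a b
    · rw [Function.update_of_ne h]
      by_cases h' : k = i
      · subst h'
        rw [Function.update_self]
        intro h1 h2
        exact hd j h a b h2 h1
      · rw [Function.update_of_ne h']
        exact hF.disj j k hjk a b

lemma wt_update (F : ι → SimpleGraph V) (i : ι) (H : SimpleGraph V) :
    wt (Function.update F i H) + (F i).edgeSet.ncard = wt F + H.edgeSet.ncard := by
  unfold wt
  rw [← Finset.add_sum_erase Finset.univ _ (Finset.mem_univ i),
    ← Finset.add_sum_erase Finset.univ (fun j => (F j).edgeSet.ncard) (Finset.mem_univ i)]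
  rw [Function.update_self]
  have : ∑ x ∈ Finset.univ.erase i, (Function.update F i H x).edgeSet.ncard
      = ∑ x ∈ Finset.univ.erase i, (F x).edgeSet.ncard := by
    apply Finset.sum_congr rfl
    intro x hx
    rw [Function.update_of_ne (Finset.ne_of_mem_erase hx)]
  rw [this]
  omega

lemma sw_edgeSet (H : SimpleGraph V) {x y u v : V} (huv : u ≠ v) :
    (sw H x y u v).edgeSet = insert s(u, v) (H.edgeSet \ {s(x, y)}) := by
  ext e
  induction e using Sym2.ind with
  | _ a b =>
    rw [mem_edgeSet, sw_adj, Set.mem_insert_iff, Set.mem_sdiff, mem_edgeSet,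
      Set.mem_singleton_iff]
    tauto

variable [Finite V]

lemma sw_ncard (H : SimpleGraph V) {x y u v : V} (huv : u ≠ v) (hn : ¬ H.Adj u v)
    (hxy : H.Adj x y) : (sw H x y u v).edgeSet.ncard = H.edgeSet.ncard := by
  rw [sw_edgeSet H huv, Set.ncard_insert_of_notMem]
  · exact Set.ncard_sdiff_singleton_add_one hxy (Set.toFinite _)
  · intro h
    exact hn h.1

lemma Repl.isMax {G : SimpleGraph V} {F F' : ι → SimpleGraph V} (hF : IsMax G F)
    (h : Repl G F F') : IsMax G F' := by
  obtain ⟨i, u, v, x, y, huv, hun, hxy, hac, rfl⟩ := h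
  have hval : Valid G (Function.update F i (sw (F i) x y u v)) := by
    apply valid_update hF.valid i _ hac
    · intro a b hab
      rw [sw_adj] at hab
      rcases hab with h | ⟨h, _⟩
      · exact hF.valid.le i h.1
      · rw [← mem_edgeSet, h, mem_edgeSet]; exact huv
    · intro j hj a b hab hab'
      rw [sw_adj] at hab
      rcases hab with h | ⟨h, _⟩
      · exact hF.valid.disj i j hj.symm a b h.1 hab'
      · apply hun j
        rw [← mem_edgeSet, ← h, mem_edgeSet]; exact hab'
  refine ⟨hval, ?_⟩
  intro F' hF'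
  have h1 := wt_update F i (sw (F i) x y u v)
  rw [sw_ncard (F i) huv.ne (hun i) hxy] at h1
  have h2 := hF.max F' hF'
  omega

/-- the graph of edges that can be left uncovered -/
def G0 (G : SimpleGraph V) (F0 : ι → SimpleGraph V) : SimpleGraph V where
  Adj a b := G.Adj a b ∧ ∃ F, Relation.ReflTransGen (Repl G) F0 F ∧ ∀ j, ¬ (F j).Adj a b
  symm := by
    constructor
    rintro a b ⟨h1, F, h2, h3⟩
    exact ⟨h1.symm, F, h2, fun j h => h3 j h.symm⟩
  loopless := by
    constructor
    rintro a ⟨h, _⟩
    exact G.loopless.irrefl a h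

omit [Fintype ι] [DecidableEq ι] [Finite V] in
lemma reach_of_adj {H1 H2 : SimpleGraph V} (h : ∀ a b, H1.Adj a b → H2.Reachable a b) {a b : V}
    (hab : H1.Reachable a b) : H2.Reachable a b := by
  obtain ⟨p⟩ := hab
  induction p with
  | nil => exact Reachable.refl _
  | cons h1 _ ih => exact (h _ _ h1).trans ih

lemma claim1 {G : SimpleGraph V} {F0 F : ι → SimpleGraph V} (hF0 : IsMax G F0)
    (hF : Relation.ReflTransGen (Repl G) F0 F) (hmax : IsMax G F) {u v : V} (huv : G.Adj u v)
    (hun : ∀ j, ¬ (F j).Adj u v) (i : ι) : (F i ⊓ G0 G F0).Reachable u v := by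
  classical
  have hr : (F i).Reachable u v := by
    by_contra hnr
    have hac := IsAcyclic.sup_edge_of_not_reachable hnr (hmax.valid.acyc i)
    have hval : Valid G (Function.update F i (F i ⊔ edge u v)) := by
      apply valid_update hmax.valid i _ hac
      · rw [sup_le_iff]
        refine ⟨hmax.valid.le i, ?_⟩
        intro a b hab
        rw [edge_adj] at hab
        rcases hab.1 with ⟨rfl, rfl⟩ | ⟨rfl, rfl⟩
        · exact huv
        · exact huv.symm
      · intro j hj a b hab hab'
        rw [sup_adj, edge_adj] at hab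
        rcases hab with h | h
        · exact hmax.valid.disj i j hj.symm a b h hab'
        · rcases h.1 with ⟨rfl, rfl⟩ | ⟨rfl, rfl⟩
          · exact hun j hab'
          · exact hun j hab'.symm
    have h1 := hmax.max _ hval
    have h2 := wt_update F i (F i ⊔ edge u v)
    have h3 : (F i ⊔ edge u v).edgeSet.ncard = (F i).edgeSet.ncard + 1 := by
      have : (F i ⊔ edge u v).edgeSet = insert s(u, v) (F i).edgeSet := by
        ext e
        induction e using Sym2.ind with
        | _ a b =>
          rw [mem_edgeSet, sup_adj, edge_adj, Set.mem_insert_iff, mem_edgeSet, Sym2.eq_iff]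
          constructor
          · rintro (h | h)
            · right; exact h
            · left; exact h.1
          · rintro (h | h)
            · right
              refine ⟨h, ?_⟩
              rcases h with ⟨rfl, rfl⟩ | ⟨rfl, rfl⟩
              · exact huv.ne
              · exact huv.ne.symm
            · left; exact h
      rw [this, Set.ncard_insert_of_notMem _ (Set.toFinite _)]
      exact hun i
    omega
  obtain ⟨p0⟩ := hr
  let p := p0.bypass
  have hp : p.IsPath := p0.bypass_isPath
  have hedge : ∀ e ∈ p.edges, e ∈ (F i ⊓ G0 G F0).edgeSet := by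
    intro e he
    induction e using Sym2.ind with
    | _ x y =>
      have hxy : (F i).Adj x y := p.adj_of_mem_edges he
      rw [mem_edgeSet, inf_adj]
      refine ⟨hxy, hmax.valid.le i hxy, ?_⟩
      have hnr : ¬ ((F i).deleteEdges {s(x, y)}).Reachable u v := by
        intro h
        rw [reachable_deleteEdges_iff_exists_walk] at h
        obtain ⟨q, hq⟩ := h
        have h1 : (⟨q.bypass, q.bypass_isPath⟩ : (F i).Path u v) = ⟨p, hp⟩ :=
          ((hmax.valid.acyc i).subsingleton_path u v).elim _ _
        have h2 : q.bypass = p := congrArg Subtype.val h1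
        apply hq
        apply q.edges_bypass_subset_edges
        rw [h2]
        exact he
      have hac : (sw (F i) x y u v).IsAcyclic :=
        IsAcyclic.sup_edge_of_not_reachable hnr ((hmax.valid.acyc i).anti (deleteEdges_le _))
      refine ⟨Function.update F i (sw (F i) x y u v), ?_, ?_⟩
      · exact hF.tail ⟨i, u, v, x, y, huv, hun, hxy, hac, rfl⟩
      · intro j hj
        by_cases h : j = i
        · subst h
          rw [Function.update_self, sw_adj] at hj
          rcases hj with hj | ⟨hj, _⟩
          · exact hj.2 rfl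
          · apply hun j
            rw [← mem_edgeSet, ← hj, mem_edgeSet]; exact hxy
        · rw [Function.update_of_ne h] at hj
          exact hmax.valid.disj i j (Ne.symm h) x y hxy hj
  exact ⟨p.transfer _ hedge⟩

lemma reach_max {G : SimpleGraph V} {F0 F : ι → SimpleGraph V} (hF0 : IsMax G F0)
    (hF : Relation.ReflTransGen (Repl G) F0 F) : IsMax G F := by
  induction hF with
  | refl => exact hF0
  | tail _ h ih => exact h.isMax ih

lemma claim3 {G : SimpleGraph V} {F0 F : ι → SimpleGraph V} (hF0 : IsMax G F0)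
    (hF : Relation.ReflTransGen (Repl G) F0 F) (j : ι) {a b : V}
    (hab : (F j ⊓ G0 G F0).Reachable a b) : (F0 j ⊓ G0 G F0).Reachable a b := by
  induction hF generalizing a b with
  | refl => exact hab
  | @tail F1 F2 h1 h2 ih =>
    apply ih
    have hmax := reach_max hF0 h1
    obtain ⟨i, u, v, x, y, huv, hun, hxy, hac, rfl⟩ := h2
    refine reach_of_adj ?_ hab
    intro s t hst
    rw [inf_adj] at hst
    by_cases h : j = i
    · subst h
      rw [Function.update_self, sw_adj] at hst
      obtain ⟨h3 | ⟨h3, _⟩, h4⟩ := hst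
      · exact Adj.reachable (show (F1 j ⊓ G0 G F0).Adj s t from ⟨h3.1, h4⟩)
      · have h5 := claim1 hF0 h1 hmax huv hun j
        rw [Sym2.eq_iff] at h3
        rcases h3 with ⟨rfl, rfl⟩ | ⟨rfl, rfl⟩
        · exact h5
        · exact h5.symm
    · rw [Function.update_of_ne h] at hst
      exact Adj.reachable (show (F1 j ⊓ G0 G F0).Adj s t from hst)

/-- **Nash-Williams' arboricity theorem**: a finite graph in which every non-empty vertex set `U`
spans at most `k (|U| - 1)` edges is a union of `k` forests. -/
theorem nash_williams {G : SimpleGraph V}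
    (hs : ∀ U : Set V, U.Nonempty →
      {e ∈ G.edgeSet | ∀ v ∈ e, v ∈ U}.ncard + Fintype.card ι ≤ Fintype.card ι * U.ncard) :
    ∃ F : ι → SimpleGraph V, (∀ i, (F i).IsAcyclic) ∧ ⨆ i, F i = G := by
  classical
  -- a maximum family
  have hmaxex : ∃ F0 : ι → SimpleGraph V, IsMax G F0 := by
    let S : Set ℕ := {k | ∃ F : ι → SimpleGraph V, Valid G F ∧ wt F = k}
    have hne : S.Nonempty := by
      refine ⟨_, fun _ => ⊥, ⟨fun _ => bot_le, fun _ => isAcyclic_bot, fun _ _ _ a b h => ?_⟩, rfl⟩
      exact absurd h (by simp)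
    have hbdd : BddAbove S := by
      refine ⟨∑ _i : ι, G.edgeSet.ncard, ?_⟩
      rintro k ⟨F, hF, rfl⟩
      apply Finset.sum_le_sum
      intro i _
      exact Set.ncard_le_ncard (edgeSet_mono (hF.le i)) (Set.toFinite _)
    obtain ⟨F0, hF0, hk⟩ := Nat.sSup_mem hne hbdd
    refine ⟨F0, hF0, ?_⟩
    intro F' hF'
    rw [hk]
    exact le_csSup hbdd ⟨F', hF', rfl⟩
  obtain ⟨F0, hF0⟩ := hmaxex
  refine ⟨F0, hF0.valid.acyc, ?_⟩
  apply le_antisymm (iSup_le hF0.valid.le)
  intro u0 v0 h0
  by_contra hcon
  have hun : ∀ j, ¬ (F0 j).Adj u0 v0 := by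
    intro j hj
    apply hcon
    rw [iSup_adj]
    exact ⟨j, hj⟩
  let U : Set V := {x | (G0 G F0).Reachable u0 x}
  have hu0 : u0 ∈ U := Reachable.refl _
  have hv0 : v0 ∈ U := by
    have : (G0 G F0).Adj u0 v0 := ⟨h0, F0, Relation.ReflTransGen.refl, hun⟩
    exact this.reachable
  have hclaim4 : ∀ i x, (G0 G F0).Reachable u0 x ↔ (F0 i ⊓ G0 G F0).Reachable u0 x := by
    intro i x
    constructor
    · apply reach_of_adj
      rintro a b ⟨hab, F, hF, hj⟩
      exact claim3 hF0 hF i (claim1 hF0 hF (reach_max hF0 hF) hab hj i)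
    · intro h
      exact h.mono inf_le_right
  -- edges of F0 i inside U
  have hcount : ∀ i, U.ncard ≤ {e ∈ (F0 i).edgeSet | ∀ v ∈ e, v ∈ U}.ncard + 1 := by
    intro i
    set H := F0 i ⊓ G0 G F0 with hH
    set C := H.connectedComponentMk u0 with hC
    have hsupp : C.supp = U := by
      ext x
      rw [ConnectedComponent.mem_supp_iff, hC, ConnectedComponent.eq]
      show _ ↔ (G0 G F0).Reachable u0 x
      rw [hclaim4 i x]
      exact reachable_comm
    have h1 := C.connected_toSimpleGraph.card_vert_le_card_edgeSet_add_one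
    have h2 : Nat.card C = U.ncard := by
      rw [← hsupp]
      rfl
    rw [h2] at h1
    refine h1.trans ?_
    apply Nat.add_le_add_right
    rw [← Nat.card_coe_set_eq]
    -- injection of edges
    let φ : C.toSimpleGraph.edgeSet → {e ∈ (F0 i).edgeSet | ∀ v ∈ e, v ∈ U} := fun e =>
      ⟨Sym2.map Subtype.val e.1, by
        obtain ⟨e, he⟩ := e
        induction e using Sym2.ind with
        | _ a b =>
          have hab : H.Adj a.1 b.1 := he
          constructor
          · rw [Sym2.map_mk, mem_edgeSet]
            exact hab.1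
          · intro v hv
            rw [Sym2.map_mk, Sym2.mem_iff] at hv
            rw [← hsupp]
            rcases hv with rfl | rfl
            · exact a.2
            · exact b.2⟩
    have hφ : Function.Injective φ := by
      intro e e' h
      apply Subtype.ext
      exact Sym2.map.injective Subtype.val_injective (congrArg Subtype.val h)
    exact Nat.card_le_card_of_injective φ hφ
  -- total count
  have hdisj : ∀ i j, i ≠ j → Disjoint {e ∈ (F0 i).edgeSet | ∀ v ∈ e, v ∈ U}
      {e ∈ (F0 j).edgeSet | ∀ v ∈ e, v ∈ U} := by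
    intro i j hij
    rw [Set.disjoint_left]
    intro e
    induction e using Sym2.ind with
    | _ a b =>
      rintro ⟨h1, _⟩ ⟨h2, _⟩
      exact hF0.valid.disj i j hij a b h1 h2
  have htotal : (⋃ i, {e ∈ (F0 i).edgeSet | ∀ v ∈ e, v ∈ U}).ncard
      = ∑ i, {e ∈ (F0 i).edgeSet | ∀ v ∈ e, v ∈ U}.ncard := by
    have h1 : (⋃ i, {e ∈ (F0 i).edgeSet | ∀ v ∈ e, v ∈ U})
        = ↑(Finset.univ.biUnion fun i => (Set.toFinite {e ∈ (F0 i).edgeSet | ∀ v ∈ e, v ∈ U}).toFinset) := by
      ext e; simp
    rw [h1, Set.ncard_coe_finset, Finset.card_biUnion]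
    · apply Finset.sum_congr rfl
      intro i _
      rw [Set.ncard_eq_toFinset_card _ (Set.toFinite _)]
    · intro i _ j _ hij
      have := hdisj i j hij
      rw [Function.onFun, Finset.disjoint_left]
      intro e he he'
      rw [Set.Finite.mem_toFinset] at he he'
      exact Set.disjoint_left.1 this he he'
  have hsub : insert s(u0, v0) (⋃ i, {e ∈ (F0 i).edgeSet | ∀ v ∈ e, v ∈ U}) ⊆
      {e ∈ G.edgeSet | ∀ v ∈ e, v ∈ U} := by
    intro e he
    rcases he with rfl | he
    · refine ⟨h0, ?_⟩
      intro v hv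
      rw [Sym2.mem_iff] at hv
      rcases hv with rfl | rfl
      · exact hu0
      · exact hv0
    · rw [Set.mem_iUnion] at he
      obtain ⟨i, hi, hi'⟩ := he
      exact ⟨edgeSet_mono (hF0.valid.le i) hi, hi'⟩
  have h1 := Set.ncard_le_ncard hsub (Set.toFinite _)
  rw [Set.ncard_insert_of_notMem, htotal] at h1
  · have h2 := hs U ⟨u0, hu0⟩
    have h3 : ∑ _i : ι, U.ncard ≤ ∑ i, ({e ∈ (F0 i).edgeSet | ∀ v ∈ e, v ∈ U}.ncard + 1) :=
      Finset.sum_le_sum fun i _ => hcount i
    rw [Finset.sum_add_distrib, Finset.sum_const, Finset.sum_const, Finset.card_univ,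
      smul_eq_mul, smul_eq_mul, mul_one] at h3
    omega
  · intro h
    rw [Set.mem_iUnion] at h
    obtain ⟨i, hi, _⟩ := h
    exact hun i hi
  
end Pool.Agent.Helper65.TT.NW
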