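import Mathlib
import Pool.Agent.Helper65.TT.Defs
import Pool.Agent.Helper65.TT.Count

set_option autoImplicit false

namespace Pool.Agent.Helper65.TT

open SimpleGraph

variable {V : Type*}

/-- the subgraph of `G` given by a component of `F` -/
def compSub (G F : SimpleGraph V) (h : F ≤ G) (C : F.ConnectedComponent) : G.Subgraph where
  verts := C.supp
  Adj x y := F.Adj x y ∧ x ∈ C.supp
  adj_sub h' := h h'.1
  edge_vert h' := h'.2
  symm := by
    constructor
    rintro x y ⟨h1, h2⟩
    exact ⟨h1.symm, (ConnectedComponent.mem_supp_congr_adj C h1).1 h2⟩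

lemma compSub_isTree (G F : SimpleGraph V) (h : F ≤ G) (hF : F.IsAcyclic)
    (C : F.ConnectedComponent) : (compSub G F h C).coe.IsTree := by
  have h1 := hF.isTree_connectedComponent C
  have e : (compSub G F h C).coe ≃g C.toSimpleGraph :=
    { toEquiv := Equiv.refl _
      map_rel_iff' := by
        rintro ⟨a, ha⟩ ⟨b, hb⟩
        show F.Adj a b ↔ F.Adj a b ∧ a ∈ C.supp
        exact ⟨fun h => ⟨h, ha⟩, fun h => h.1⟩ }
  exact e.isTree_iff.2 h1

lemma toSubgraph_isTree (G T : SimpleGraph V) (h : T ≤ G) (hT : T.IsTree) :
    (toSubgraph T h).coe.IsTree := by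
  have e : T ≃g (toSubgraph T h).coe :=
    { toEquiv := (Equiv.Set.univ V).symm
      map_rel_iff' := by
        intro a b
        rfl }
  exact e.isTree_iff.1 hT

lemma decomposition_of_family {G : SimpleGraph V} {ι : Type*} [Finite ι] (K : ι → G.Subgraph)
    (h1 : ∀ i, (K i).coe.IsTree) (h2 : ∀ i j, i ≠ j → Disjoint (K i).edgeSet (K j).edgeSet)
    (h3 : ⨆ i, K i = ⊤) : ∃ H : Fin (Nat.card ι) → G.Subgraph, IsTreeDecomposition G H := by
  let e := (Finite.equivFin ι).symm
  refine ⟨fun i => K (e i), fun i => h1 _, ?_, ?_⟩
  · intro i j hij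
    exact h2 _ _ (fun h => hij (e.injective h))
  · rw [← h3]
    exact e.surjective.iSup_comp K

theorem exists_decomposition [Fintype V] [DecidableEq V] {G : SimpleGraph V}
    (hG : G.CliqueFree 3) (h : ∃ T F, Dec G T F) :
    ∃ t, t ≤ Fintype.card V / 4 + 1 ∧ ∃ H : Fin t → G.Subgraph, IsTreeDecomposition G H := by
  classical
  obtain ⟨T, F, hb⟩ := exists_best h
  have hd := hb.good.dec
  have hcount := four_mul_comps_le hb hG
  have hTG : T ≤ G := fun a b hab => (hd.hG a b).2 (Or.inl hab)
  have hFG : F ≤ G := fun a b hab => (hd.hG a b).2 (Or.inr hab)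
  let N := {C : F.ConnectedComponent // ∃ u v, F.Adj u v ∧ F.connectedComponentMk u = C}
  let K : Option N → G.Subgraph := fun o => match o with
    | none => toSubgraph T hTG
    | some C => compSub G F hFG C.1
  have hle : ∃ H : Fin (Nat.card (Option N)) → G.Subgraph, IsTreeDecomposition G H := by
    apply decomposition_of_family K
    · rintro (_ | C)
      · exact toSubgraph_isTree G T hTG hd.hT
      · exact compSub_isTree G F hFG hd.hF C.1
    · rintro (_ | C) (_ | C') hne
      · exact absurd rfl hne
      · rw [Set.disjoint_left]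
        intro e
        induction e using Sym2.ind with
        | _ a b =>
          intro h1 h2
          rw [Subgraph.mem_edgeSet] at h1 h2
          exact hd.hd a b h1 h2.1
      · rw [Set.disjoint_left]
        intro e
        induction e using Sym2.ind with
        | _ a b =>
          intro h1 h2
          rw [Subgraph.mem_edgeSet] at h1 h2
          exact hd.hd a b h2 h1.1
      · rw [Set.disjoint_left]
        intro e
        induction e using Sym2.ind with
        | _ a b =>
          intro h1 h2
          rw [Subgraph.mem_edgeSet] at h1 h2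
          apply hne
          have e1 : F.connectedComponentMk a = C.1 := h1.2
          have e2 : F.connectedComponentMk a = C'.1 := h2.2
          have : C = C' := Subtype.ext (e1.symm.trans e2)
          rw [this]
    · apply top_le_iff.1
      refine ⟨?_, ?_⟩
      · intro v _
        rw [Subgraph.verts_iSup, Set.mem_iUnion]
        exact ⟨none, trivial⟩
      · intro a b hab
        rw [Subgraph.iSup_adj]
        have hab' : G.Adj a b := hab
        rcases (hd.hG a b).1 hab' with h1 | h1
        · exact ⟨none, h1⟩
        · exact ⟨some ⟨F.connectedComponentMk a, a, b, h1, rfl⟩, h1, rfl⟩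
  have hcard : Nat.card (Option N) = Nat.card N + 1 := Finite.card_option
  have : 4 * Nat.card N ≤ Fintype.card V := hcount
  exact ⟨_, by omega, hle⟩

theorem thickness_le [Fintype V] [DecidableEq V] {G : SimpleGraph V} (hG : G.CliqueFree 3)
    (h : ∃ T F, Dec G T F) : treeThickness G ≤ Fintype.card V / 4 + 1 := by
  obtain ⟨t, ht, hH⟩ := exists_decomposition hG h
  exact (Nat.sInf_le hH).trans ht

end Pool.Agent.Helper65.TT
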