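import Mathlib
import Pool.Agent.Helper65.TT.Upper
import Pool.Agent.Helper65.TT.NW
import Pool.Agent.Helper65.TT.Sparse

set_option autoImplicit false

namespace Pool.Agent.Helper65.TT

open SimpleGraph

variable {V : Type*} [Fintype V] [DecidableEq V]

/-- A connected graph in which every non-empty vertex set `U` spans at most `2 |U| - 2` edges is an
edge-disjoint union of a spanning tree and a forest. -/
theorem exists_dec {G : SimpleGraph V} (hG : G.Connected)
    (hs : ∀ U : Set V, U.Nonempty → {e ∈ G.edgeSet | ∀ v ∈ e, v ∈ U}.ncard + 2 ≤ 2 * U.ncard) :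
    ∃ T F, Dec G T F := by
  obtain ⟨F, hF, hFG⟩ := NW.nash_williams (ι := Fin 2) (G := G) (by
    intro U hU
    rw [Fintype.card_fin]
    exact hs U hU)
  have hF0 : F 0 ≤ G := by rw [← hFG]; exact le_iSup F 0
  obtain ⟨T, h1, h2, hT⟩ := hG.exists_isTree_le_of_le_of_isAcyclic hF0 (hF 0)
  refine ⟨T, G \ T, hT, ?_, ?_, ?_⟩
  · apply (hF 1).anti
    intro a b hab
    rw [sdiff_adj] at hab
    have h3 : (⨆ i, F i).Adj a b := by rw [hFG]; exact hab.1
    rw [iSup_adj] at h3
    obtain ⟨i, hi⟩ := h3
    fin_cases i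
    · exact absurd (h1 hi) hab.2
    · exact hi
  · intro a b
    rw [sdiff_adj]
    constructor
    · intro h
      by_cases h' : T.Adj a b
      · exact Or.inl h'
      · exact Or.inr ⟨h, h'⟩
    · rintro (h | h)
      · exact h2 h
      · exact h.1
  · intro a b h h'
    rw [sdiff_adj] at h'
    exact h'.2 h

/-- upper bound -/
theorem decomposition_of_planar {G : SimpleGraph V} (hG : G.Connected) (hfree : G.CliqueFree 3)
    (hpl : IsPlanar G) :
    ∃ t, t ≤ Fintype.card V / 4 + 1 ∧ ∃ H : Fin t → G.Subgraph, IsTreeDecomposition G H := by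
  classical
  exact exists_decomposition hfree
    (exists_dec hG fun U hU => Planar.sparse_of_planar G hG hfree hpl U hU)

theorem thickness_le_of_planar {G : SimpleGraph V} (hG : G.Connected) (hfree : G.CliqueFree 3)
    (hpl : IsPlanar G) : treeThickness G ≤ Fintype.card V / 4 + 1 := by
  obtain ⟨t, ht, hH⟩ := decomposition_of_planar hG hfree hpl
  exact (Nat.sInf_le hH).trans ht

end Pool.Agent.Helper65.TT
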